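import Pool.Agent.J6H29.GT.Sys
import Pool.Agent.K3h89.SX.Top

/-!
# Szemerédi's theorem relative to the `n` with `n² + k²` free of small prime factors, uniformly in `k`
-/

set_option autoImplicit false

open Finset Filter Topology

namespace Pool.Agent.J6H29.GT

open Pool.Agent.K3h89.SZ (SysP CF strip)
open Pool.Agent.Y677.RSZ (rt V ev_log)
open Pool.Agent.TH423.SH (PS)

/-- the relative Szemerédi theorem, uniform in `k` and in the interval -/
theorem dens (l C : ℕ) (δ κ : ℝ) (hδ : 0 < δ) (hκ : 0 < κ) : ∃ B H₀ : ℕ, ∀ (k Y H : ℕ) (A : Finset ℕ),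
    H₀ ≤ H → 1 ≤ k → k ≤ H ^ C → Y ≤ H ^ C → A ⊆ Ioc Y (Y + H) →
    (∀ n ∈ A, ∀ p : ℕ, p.Prime → (p : ℝ) ≤ (H : ℝ) ^ δ → ¬ p ∣ n ^ 2 + k ^ 2) →
    κ * (H * V (Gq k) 1 H) ≤ A.card →
    ∃ a d : ℕ, 1 ≤ d ∧ (d : ℝ) ≤ Real.log H ^ B ∧ ∀ i < l, a + i * d ∈ A := by
  classical
  obtain ⟨g, hg⟩ : ∃ g : ℕ, g = 2 * C + 4 := ⟨_, rfl⟩
  obtain ⟨εE, hεE, B, H₂, hE⟩ := Pool.Agent.K3h89.SX.engX_all (max l 2) g δ (κ / 2) (le_max_right _ _) hδ
    (by positivity)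
  obtain ⟨H₃, hX⟩ := badG C B εE hεE
  obtain ⟨H₄, hL⟩ := larG C B (1 / (4 * ((g : ℕ) + 1))) (by positivity)
  have hlog : Tendsto (fun H : ℕ => Real.log (H : ℝ)) atTop atTop :=
    Real.tendsto_log_atTop.comp tendsto_natCast_atTop_atTop
  have hsq : Tendsto (fun H : ℕ => Real.exp (√(Real.log (H : ℝ)))) atTop atTop :=
    Real.tendsto_exp_atTop.comp (Real.tendsto_sqrt_atTop.comp hlog)
  obtain ⟨H₅, hH₅⟩ := eventually_atTop.1 (hsq.eventually_ge_atTop ((2 * (g + 1) : ℕ) : ℝ))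
  refine ⟨B, H₂ + H₃ + H₄ + H₅ + 5, fun k Y H A hH hk1 hkH hYH hA hAp hAc => ?_⟩
  -- the stripped function
  obtain ⟨bad, hbd⟩ : ∃ bad : ℕ → Prop, bad = fun p : ℕ => Real.exp (√(Real.log H)) ≤ p ∧
    ∃ h : ℕ, 1 ≤ h ∧ (h : ℝ) ≤ Real.log H ^ B ∧ CF (Gq k) h p := ⟨_, rfl⟩
  obtain ⟨F, hF⟩ : ∃ F : ℤ → ℤ, F = strip (Gq k) H bad := ⟨_, rfl⟩
  obtain ⟨s1, s2, s3, s4⟩ := Pool.Agent.K3h89.SZ.stripP g (Gq k) H bad (sysG k g (by omega))
  rw [← hF] at s1 s2 s3 s4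
  have hCF : ∀ h p : ℕ, p.Prime → CF F h p → CF (Gq k) h p ∧ ¬ bad p := by
    rintro h p hp ⟨x, hx, hx'⟩
    have g1 := (s2 x p hp).1 hx
    have g2 := (s2 (x + h) p hp).1 hx'
    exact ⟨⟨x, g1.2.2, g2.2.2⟩, g1.2.1⟩
  have hVb : V F 1 H ≤ 2 * V (Gq k) 1 H := by
    apply s4
    · apply hL H (by omega) k hkH
      intro p hp
      rw [mem_filter, hbd] at hp
      exact ⟨hp.1, hp.2.1, hp.2.2.1, hp.2.2.2⟩
    · intro p hp hbp
      rw [hbd] at hbp
      have h1 := (hH₅ H (by omega)).trans hbp.1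
      exact_mod_cast h1
  have hden : κ / 2 * (H * V F 1 H) ≤ A.card := by
    refine le_trans ?_ hAc
    have h1 : (H : ℝ) * V F 1 H ≤ H * (2 * V (Gq k) 1 H) :=
      mul_le_mul_of_nonneg_left hVb (Nat.cast_nonneg H)
    calc κ / 2 * (H * V F 1 H) ≤ κ / 2 * (H * (2 * V (Gq k) 1 H)) :=
          mul_le_mul_of_nonneg_left h1 (by positivity)
      _ = κ * (H * V (Gq k) 1 H) := by ring
  obtain ⟨a, d, hd1, hd2, hAP⟩ := hE F Y H A s1 (by omega)
    (by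
      intro x hx
      rw [mem_Ioc] at hx
      have hne : Gq k (x : ℤ) ≠ 0 := by
        unfold Gq
        have : (0 : ℤ) < (k : ℤ) ^ 2 := by positivity
        have : (0 : ℤ) ≤ (x : ℤ) ^ 2 := by positivity
        omega
      obtain ⟨g1, g2⟩ := s3 x hne
      refine ⟨g1, g2.trans ?_⟩
      unfold Gq
      rw [abs_of_nonneg (by positivity)]
      have hHC : 1 ≤ H ^ C := Nat.one_le_pow _ _ (by omega)
      have h1 : x ≤ 2 * (H * H ^ C) := by
        have h2 : H ≤ H * H ^ C := Nat.le_mul_of_pos_right _ hHC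
        have h3 : H ^ C ≤ H * H ^ C := Nat.le_mul_of_pos_left _ (by omega)
        omega
      have h4 : k ≤ H * H ^ C := hkH.trans (Nat.le_mul_of_pos_left _ (by omega))
      have h5 : x ^ 2 + k ^ 2 ≤ H ^ g := by
        have h6 : x ^ 2 ≤ (2 * (H * H ^ C)) ^ 2 := Nat.pow_le_pow_left h1 2
        have h7 : k ^ 2 ≤ (H * H ^ C) ^ 2 := Nat.pow_le_pow_left h4 2
        have h8 : H ^ g = H ^ 2 * (H * H ^ C) ^ 2 := by
          rw [hg]
          ring
        rw [h8]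
        have h9 : (2 * (H * H ^ C)) ^ 2 = 4 * (H * H ^ C) ^ 2 := by ring
        have h10 : 5 * (H * H ^ C) ^ 2 ≤ H ^ 2 * (H * H ^ C) ^ 2 := by
          apply Nat.mul_le_mul_right
          nlinarith
        omega
      exact_mod_cast h5)
    (by
      intro W N hW1 hW2 hN1 hN2 hWp
      refine le_trans ?_ (hX H (by omega) k hk1 hkH W N hW1 hW2 hN1 hN2 hWp)
      rw [Nat.cast_le]
      apply card_le_card
      intro j hj
      rw [mem_filter] at hj ⊢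
      refine ⟨hj.1, lt_of_lt_of_le hj.2 ?_⟩
      apply sum_le_sum_of_subset_of_nonneg
      · intro p hp
        rw [mem_filter] at hp ⊢
        have hp1 := hp.1
        unfold PS at hp1
        rw [mem_filter] at hp1
        exact ⟨hp.1, (hCF _ p hp1.2.1 hp.2).1⟩
      · intro p _ _
        positivity)
    (by
      intro h hh1 hh2 p hp hpe hcf
      obtain ⟨g1, g2⟩ := hCF h p hp hcf
      apply g2
      rw [hbd]
      exact ⟨hpe, h, hh1, hh2, g1⟩)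
    hA
    (by
      intro n hn q hq hqH hqd
      have g1 := ((s2 n q hq).1 hqd).2.2
      unfold Gq at g1
      exact hAp n hn q hq hqH (by exact_mod_cast g1))
    hden
  exact ⟨a, d, hd1, hd2, fun i hi => hAP i (lt_of_lt_of_le hi (le_max_left _ _))⟩

end Pool.Agent.J6H29.GT
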