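import Pool.Agent.J6H29.GT.Sys
import Pool.Agent.Results.MP_484c84_nt.ThinFamilySquareShifts

/-!
# The sieve product of `x² + k²`
-/

set_option autoImplicit false

open Finset Filter Topology

namespace Pool.Agent.J6H29.GT

open Pool.Agent.Y677.RSZ (rt V)
open Pool.Agent.TH423.SH (PS)
open Pool.Agent.Results.MP_484c84_nt.ThinFamilySquareShifts (partialC factor factor_ne)

/-- the reciprocals of the numbers composed of given primes -/
lemma fact_le' (S : Finset ℕ) (hS : ∀ p ∈ S, p.Prime) (T : Finset ℕ)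
    (hT : ∀ m ∈ T, m ≠ 0 ∧ ∀ p : ℕ, p.Prime → p ∣ m → p ∈ S) :
    ∑ m ∈ T, (m : ℝ)⁻¹ ≤ ∏ p ∈ S, (1 - (p : ℝ)⁻¹)⁻¹ := by
  classical
  let f : ℕ →* ℝ :=
    { toFun := fun n => (n : ℝ)⁻¹
      map_one' := by simp
      map_mul' := fun a b => by simp [mul_comm] }
  have hf : ∀ {p : ℕ}, p.Prime → ‖f p‖ < 1 := by
    intro p hp
    show ‖((p : ℝ))⁻¹‖ < 1
    rw [norm_inv, Real.norm_natCast]
    exact inv_lt_one_of_one_lt₀ (by exact_mod_cast hp.one_lt)
  have h := (EulerProduct.summable_and_hasSum_factoredNumbers_prod_filter_prime_geometric hf S).2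
  have hSf : S.filter Nat.Prime = S := filter_true_of_mem hS
  rw [hSf] at h
  have hmem : ∀ m ∈ T, m ∈ Nat.factoredNumbers S := by
    intro m hm
    rw [Nat.mem_factoredNumbers']
    exact (hT m hm).2
  have h2 : ∑ m ∈ T.attach, f m.1 ≤ ∏ p ∈ S, (1 - f p)⁻¹ := by
    have h3 := sum_le_hasSum (T.attach.map ⟨fun m => (⟨m.1, hmem m.1 m.2⟩ : Nat.factoredNumbers S),
      fun a b hab => by
        have := congrArg Subtype.val hab
        exact Subtype.ext this⟩) (fun m _ => by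
          show (0 : ℝ) ≤ ((m.1 : ℝ))⁻¹
          positivity) h
    rw [sum_map] at h3
    exact h3
  rw [sum_attach T (fun m => f m)] at h2
  exact h2

lemma log_le_prod (H : ℕ) (hH : 2 ≤ H) :
    Real.log H ≤ ∏ p ∈ PS 1 H, (1 - (p : ℝ)⁻¹)⁻¹ := by
  have h1 : Real.log H ≤ ∑ n ∈ Icc 1 H, (n : ℝ)⁻¹ := by
    have h := log_add_one_le_harmonic H
    have h2 : Real.log H ≤ Real.log (H + 1) :=
      Real.log_le_log (by exact_mod_cast (by omega : 0 < H)) (by linarith)
    rw [harmonic_eq_sum_Icc] at h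
    push_cast at h
    exact h2.trans (by exact_mod_cast h)
  refine h1.trans (fact_le' _ ?_ _ ?_)
  · intro p hp
    exact (mem_filter.1 hp).2.1
  · intro m hm
    rw [mem_Icc] at hm
    refine ⟨by omega, fun p hp hpm => ?_⟩
    unfold PS
    rw [mem_filter, mem_Icc]
    exact ⟨⟨hp.one_le, (Nat.le_of_dvd (by omega) hpm).trans hm.2⟩, hp,
      fun h => hp.one_lt.ne' (Nat.dvd_one.1 h)⟩

lemma prod_le_log (H : ℕ) (hH : 2 ≤ H) :
    ∏ p ∈ PS 1 H, (1 - (p : ℝ)⁻¹) ≤ 1 / Real.log H := by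
  have hlog : 0 < Real.log H := Real.log_pos (by exact_mod_cast hH)
  have h1 := log_le_prod H hH
  rw [prod_inv_distrib] at h1
  have hpos : 0 < ∏ p ∈ PS 1 H, (1 - (p : ℝ)⁻¹) := by
    apply prod_pos
    intro p hp
    have hpp := (mem_filter.1 hp).2.1
    have : (p : ℝ)⁻¹ < 1 := inv_lt_one_of_one_lt₀ (by exact_mod_cast hpp.one_lt)
    linarith
  rw [le_div_iff₀ hlog]
  calc (∏ p ∈ PS 1 H, (1 - (p : ℝ)⁻¹)) * Real.log H ≤
      (∏ p ∈ PS 1 H, (1 - (p : ℝ)⁻¹)) * (∏ p ∈ PS 1 H, (1 - (p : ℝ)⁻¹))⁻¹ :=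
        mul_le_mul_of_nonneg_left h1 hpos.le
    _ = 1 := mul_inv_cancel₀ hpos.ne'

lemma rt_ge_one (k p : ℕ) (hp : p.Prime) (h : p = 2 ∨ p ∣ k) : 1 ≤ rt (Gq k) p := by
  unfold rt
  rw [Nat.one_le_iff_ne_zero, Ne, card_eq_zero, ← Ne, ← nonempty_iff_ne_empty]
  rcases h with rfl | h
  · refine ⟨k % 2, ?_⟩
    rw [mem_filter, mem_range]
    refine ⟨Nat.mod_lt _ two_pos, ?_⟩
    unfold Gq
    have h1 : ((2 : ℕ) : ℤ) ∣ ((k % 2 : ℕ) : ℤ) + k := by
      exact_mod_cast (by omega : 2 ∣ k % 2 + k)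
    have e : (((k % 2 : ℕ) : ℤ)) ^ 2 + (k : ℤ) ^ 2 =
        (((k % 2 : ℕ) : ℤ) + k) * (((k % 2 : ℕ) : ℤ) + k) - ((2 : ℕ) : ℤ) * (((k % 2 : ℕ) : ℤ) * k) := by
      push_cast
      ring
    rw [e]
    exact dvd_sub (h1.mul_right _) (Dvd.intro _ rfl)
  · refine ⟨0, ?_⟩
    rw [mem_filter, mem_range]
    refine ⟨hp.pos, ?_⟩
    unfold Gq
    have h1 : (p : ℤ) ∣ (k : ℤ) := by exact_mod_cast h
    have : (p : ℤ) ∣ (k : ℤ) ^ 2 := h1.trans (Dvd.intro_left _ (by ring : (k : ℤ) * k = (k : ℤ) ^ 2))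
    simpa using this

lemma rt_ge_two (k p : ℕ) (hp : p.Prime) (h4 : p % 4 = 1) (hk : ¬ p ∣ k) : 2 ≤ rt (Gq k) p := by
  have : Fact p.Prime := ⟨hp⟩
  have h3 : p % 4 ≠ 3 := by omega
  obtain ⟨y, hy⟩ := (ZMod.exists_sq_eq_neg_one_iff (p := p)).2 h3
  have hk0 : (k : ZMod p) ≠ 0 := by
    rw [Ne, ZMod.natCast_eq_zero_iff]
    exact hk
  have hy0 : y ≠ 0 := by
    rintro rfl
    simp at hy
  have h2 : (2 : ZMod p) ≠ 0 := by
    intro h
    have h5 : ((2 : ℕ) : ZMod p) = 0 := by exact_mod_cast h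
    rw [ZMod.natCast_eq_zero_iff] at h5
    have := Nat.le_of_dvd two_pos h5
    have := hp.two_le
    have : p = 2 := by omega
    subst this
    omega
  obtain ⟨x, hx⟩ : ∃ x : ZMod p, x = y * k := ⟨_, rfl⟩
  have hx0 : x ≠ 0 := by rw [hx]; exact mul_ne_zero hy0 hk0
  have hxx : x ^ 2 + (k : ZMod p) ^ 2 = 0 := by
    rw [hx, mul_pow, pow_two y, ← hy]
    ring
  have hne : x.val ≠ (-x).val := by
    intro h
    have h5 := ZMod.val_injective p h
    have h6 : (2 : ZMod p) * x = 0 := by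
      calc (2 : ZMod p) * x = x + x := two_mul x
        _ = x + -x := by rw [← h5]
        _ = 0 := add_neg_cancel x
    rcases mul_eq_zero.1 h6 with h7 | h7
    · exact h2 h7
    · exact hx0 h7
  unfold rt
  rw [← card_pair hne]
  refine card_le_card fun r hr => ?_
  rw [mem_insert, mem_singleton] at hr
  rw [mem_filter, mem_range]
  have hmem : ∀ u : ZMod p, u ^ 2 + (k : ZMod p) ^ 2 = 0 → u.val < p ∧ (p : ℤ) ∣ Gq k (u.val : ℤ) := by
    intro u hu
    refine ⟨ZMod.val_lt u, ?_⟩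
    unfold Gq
    rw [← ZMod.intCast_zmod_eq_zero_iff_dvd]
    push_cast
    rw [ZMod.natCast_val, ZMod.cast_id]
    exact hu
  rcases hr with rfl | rfl
  · exact hmem x hxx
  · exact hmem (-x) (by rw [neg_sq]; exact hxx)

lemma ps_eq (H : ℕ) (k : ℕ) (hH : 2 ≤ H) (f : ℕ → ℝ) :
    ∏ p ∈ (Icc 3 H).filter Nat.Prime, f p = ∏ p ∈ PS 1 H, (if p = 2 then 1 else f p) := by
  unfold PS
  have h1 : (Icc 1 H).filter (fun p => p.Prime ∧ ¬ p ∣ 1) = insert 2 ((Icc 3 H).filter Nat.Prime) := by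
    ext p
    rw [mem_filter, mem_insert, mem_filter, mem_Icc, mem_Icc]
    constructor
    · rintro ⟨⟨h1, h2⟩, h3, h4⟩
      by_cases h5 : p = 2
      · exact Or.inl h5
      · have := h3.two_le
        exact Or.inr ⟨⟨by omega, h2⟩, h3⟩
    · rintro (rfl | ⟨⟨h1, h2⟩, h3⟩)
      · exact ⟨⟨by omega, hH⟩, Nat.prime_two, by omega⟩
      · exact ⟨⟨by omega, h2⟩, h3, fun h => h3.one_lt.ne' (Nat.dvd_one.1 h)⟩
  rw [h1, prod_insert (by simp), if_pos rfl, one_mul]
  refine prod_congr rfl fun p hp => ?_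
  rw [mem_filter, mem_Icc] at hp
  rw [if_neg (by omega)]

/-- the sieve product of `x² + k²` -/
theorem V_le (k H : ℕ) (hk : 1 ≤ k) (hkH : k ≤ H) (hH : 2 ≤ H) :
    V (Gq k) 1 H ≤ partialC H * factor k / Real.log H := by
  have hPS : ∀ p ∈ PS 1 H, p.Prime := fun p hp => (mem_filter.1 hp).2.1
  have hpp := Pool.Agent.Results.MP_484c84_nt.ThinFamilySquareShifts.pp_mul k H hk hkH
  -- the product over `p ∤ k`
  obtain ⟨c, hc⟩ : ∃ c : ℕ → ℝ, c = fun p : ℕ => (1 - (-1 : ℝ) ^ ((p - 1) / 2) / ((p : ℝ) - 1)) := ⟨_, rfl⟩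
  have hcpos : ∀ p : ℕ, 3 ≤ p → 0 < c p := by
    intro p h3
    rw [hc]
    have hp : (3 : ℝ) ≤ p := by exact_mod_cast h3
    show 0 < 1 - (-1 : ℝ) ^ ((p - 1) / 2) / ((p : ℝ) - 1)
    rcases neg_one_pow_eq_or ℝ ((p - 1) / 2) with h | h <;> rw [h]
    · have : (1 : ℝ) / ((p : ℝ) - 1) < 1 := by
        rw [div_lt_one (by linarith)]
        linarith
      linarith
    · have : (-1 : ℝ) / ((p : ℝ) - 1) < 0 := div_neg_of_neg_of_pos (by norm_num) (by linarith)
      linarith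
  have hprod : partialC H * factor k = ∏ p ∈ PS 1 H, (if p = 2 then 1 else if p ∣ k then 1 else c p) := by
    rw [← ps_eq H k hH (fun p => if p ∣ k then 1 else c p)]
    rw [← hpp]
    unfold Pool.Agent.N782.GN.pp
    have h1 : (Icc 3 H).filter (fun p : ℕ => p.Prime ∧ ¬ (p : ℤ) ∣ (k : ℤ)) =
        ((Icc 3 H).filter Nat.Prime).filter (fun p => ¬ p ∣ k) := by
      rw [filter_filter]
      apply filter_congr
      intro p _
      rw [Int.natCast_dvd_natCast]
    rw [h1, prod_filter]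
    refine prod_congr rfl fun p hp => ?_
    rw [mem_filter, mem_Icc] at hp
    by_cases hd : p ∣ k
    · rw [if_pos hd, if_neg (by simpa using hd)]
    · rw [if_neg hd, if_pos hd, hc, Pool.Agent.Results.MP_484c84_nt.ThinFamilySquareShifts.chi_eq p hp.2 hp.1.1]
  have hfac : ∀ p ∈ PS 1 H, 1 - (rt (Gq k) p : ℝ) / p ≤
      (1 - (p : ℝ)⁻¹) * (if p = 2 then 1 else if p ∣ k then 1 else c p) := by
    intro p hp
    have hpr := hPS p hp
    have hp0 : (0 : ℝ) < p := by exact_mod_cast hpr.pos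
    have hge : ∀ j : ℕ, j ≤ rt (Gq k) p → 1 - (rt (Gq k) p : ℝ) / p ≤ 1 - (j : ℝ) / p := by
      intro j hj
      have h1 : (j : ℝ) ≤ rt (Gq k) p := by exact_mod_cast hj
      have := div_le_div_of_nonneg_right h1 hp0.le
      linarith
    by_cases h2 : p = 2
    · rw [if_pos h2, mul_one]
      have := hge 1 (rt_ge_one k p hpr (Or.inl h2))
      rw [Nat.cast_one, one_div] at this
      exact this
    · rw [if_neg h2]
      by_cases hd : p ∣ k
      · rw [if_pos hd, mul_one]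
        have := hge 1 (rt_ge_one k p hpr (Or.inr hd))
        rw [Nat.cast_one, one_div] at this
        exact this
      · rw [if_neg hd]
        have hp3' : 3 ≤ p := by
          have := hpr.two_le
          omega
        have hp3 : (3 : ℝ) ≤ p := by exact_mod_cast hp3'
        have hodd : p % 2 = 1 := hpr.eq_two_or_odd.resolve_left h2
        rcases (by omega : p % 4 = 1 ∨ p % 4 = 3) with h4 | h4
        · have h5 := hge 2 (rt_ge_two k p hpr h4 hd)
          refine h5.trans (le_of_eq ?_)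
          have h6 : (-1 : ℝ) ^ ((p - 1) / 2) = 1 := by
            apply Even.neg_one_pow
            exact ⟨(p - 1) / 4, by omega⟩
          rw [hc]
          show 1 - ((2 : ℕ) : ℝ) / p = (1 - (p : ℝ)⁻¹) * (1 - (-1 : ℝ) ^ ((p - 1) / 2) / ((p : ℝ) - 1))
          rw [h6]
          have h7 : (p : ℝ) - 1 ≠ 0 := by linarith
          field_simp
          push_cast
          ring
        · have h5 := hge 0 (Nat.zero_le _)
          refine h5.trans (le_of_eq ?_)
          have h6 : (-1 : ℝ) ^ ((p - 1) / 2) = -1 := by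
            apply Odd.neg_one_pow
            exact ⟨(p - 3) / 4, by omega⟩
          rw [hc]
          show 1 - ((0 : ℕ) : ℝ) / p = (1 - (p : ℝ)⁻¹) * (1 - (-1 : ℝ) ^ ((p - 1) / 2) / ((p : ℝ) - 1))
          rw [h6]
          have h7 : (p : ℝ) - 1 ≠ 0 := by linarith
          field_simp
          push_cast
          ring
  have hnn : ∀ p ∈ PS 1 H, 0 ≤ 1 - (rt (Gq k) p : ℝ) / p := by
    intro p hp
    have hp0 : (0 : ℝ) < p := by exact_mod_cast (hPS p hp).pos
    rw [sub_nonneg, div_le_one hp0]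
    exact_mod_cast (rt_lt k p (hPS p hp)).le
  have hpos : 0 ≤ ∏ p ∈ PS 1 H, (if p = 2 then 1 else if p ∣ k then 1 else c p) := by
    apply prod_nonneg
    intro p hp
    split_ifs with h1 h2
    · exact zero_le_one
    · exact zero_le_one
    · have := (hPS p hp).two_le
      exact (hcpos p (by omega)).le
  calc V (Gq k) 1 H = ∏ p ∈ PS 1 H, (1 - (rt (Gq k) p : ℝ) / p) := rfl
    _ ≤ ∏ p ∈ PS 1 H, ((1 - (p : ℝ)⁻¹) * (if p = 2 then 1 else if p ∣ k then 1 else c p)) :=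
        prod_le_prod hnn hfac
    _ = (∏ p ∈ PS 1 H, (1 - (p : ℝ)⁻¹)) * ∏ p ∈ PS 1 H, (if p = 2 then 1 else if p ∣ k then 1 else c p) :=
        prod_mul_distrib
    _ ≤ 1 / Real.log H * ∏ p ∈ PS 1 H, (if p = 2 then 1 else if p ∣ k then 1 else c p) :=
        mul_le_mul_of_nonneg_right (prod_le_log H hH) hpos
    _ = partialC H * factor k / Real.log H := by rw [hprod]; ring

/-- the product over distinct integers -/
lemma prod_lower (S : Finset ℕ) (hS : ∀ p ∈ S, 2 ≤ p) : 1 / ((S.card : ℝ) + 1) ≤ ∏ p ∈ S, (1 - (p : ℝ)⁻¹) := by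
  induction h : S.card generalizing S with
  | zero =>
    rw [card_eq_zero] at h
    rw [h]
    simp
  | succ n ih =>
    have hne : S.Nonempty := by
      rw [← card_pos]
      omega
    obtain ⟨m, hm⟩ : ∃ m, m = S.max' hne := ⟨_, rfl⟩
    have hmS : m ∈ S := by rw [hm]; exact max'_mem S hne
    have hsub : S ⊆ Icc 2 m := by
      intro p hp
      rw [mem_Icc]
      exact ⟨hS p hp, by rw [hm]; exact le_max' S p hp⟩
    have hmn : n + 2 ≤ m := by
      have := card_le_card hsub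
      rw [h, Nat.card_Icc] at this
      omega
    have h1 := ih (S.erase m) (fun p hp => hS p (mem_of_mem_erase hp)) (by rw [card_erase_of_mem hmS, h]; rfl)
    rw [← mul_prod_erase S _ hmS]
    have hm2 : ((n : ℝ) + 2) ≤ m := by exact_mod_cast hmn
    have hn0 : (0 : ℝ) ≤ n := Nat.cast_nonneg n
    have h2 : (1 - ((n : ℝ) + 2)⁻¹) ≤ 1 - (m : ℝ)⁻¹ := by
      have := inv_anti₀ (by linarith) hm2
      linarith
    have h3 : 0 ≤ 1 - ((n : ℝ) + 2)⁻¹ := by
      have : ((n : ℝ) + 2)⁻¹ ≤ 1 := inv_le_one_of_one_le₀ (by linarith)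
      linarith
    calc 1 / (((n + 1 : ℕ) : ℝ) + 1) = (1 - ((n : ℝ) + 2)⁻¹) * (1 / ((n : ℝ) + 1)) := by
          push_cast
          field_simp
          ring
      _ ≤ (1 - (m : ℝ)⁻¹) * ∏ p ∈ S.erase m, (1 - (p : ℝ)⁻¹) :=
          mul_le_mul h2 h1 (by positivity) (h3.trans h2)

lemma frac_lower (k : ℕ) (hk : 1 ≤ k) :
    1 / (2 * Real.log k + 1) ≤ ∏ p ∈ k.primeFactors, (1 - (p : ℝ)⁻¹) := by
  refine le_trans ?_ (prod_lower k.primeFactors fun p hp => (Nat.prime_of_mem_primeFactors hp).two_le)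
  have h1 : (2 : ℝ) ^ k.primeFactors.card ≤ k := by
    have h2 : (2 : ℕ) ^ k.primeFactors.card ≤ k := by
      calc 2 ^ k.primeFactors.card = ∏ _p ∈ k.primeFactors, 2 := by rw [prod_const]
        _ ≤ ∏ p ∈ k.primeFactors, p := prod_le_prod' fun p hp => (Nat.prime_of_mem_primeFactors hp).two_le
        _ ≤ k := Nat.le_of_dvd hk (Nat.prod_primeFactors_dvd k)
    exact_mod_cast h2
  have h2 : (k.primeFactors.card : ℝ) * Real.log 2 ≤ Real.log k := by
    rw [← Real.log_pow]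
    exact Real.log_le_log (by positivity) h1
  have h3 : (0.5 : ℝ) ≤ Real.log 2 := by linarith [Real.log_two_gt_d9]
  have h4 : (0 : ℝ) ≤ k.primeFactors.card := Nat.cast_nonneg _
  apply one_div_le_one_div_of_le (by linarith)
  nlinarith

lemma factor_lower (k : ℕ) : ∏ p ∈ k.primeFactors, (1 - (p : ℝ)⁻¹) ≤ factor k := by
  unfold factor
  have h1 : ∏ p ∈ k.primeFactors, (1 - (p : ℝ)⁻¹) ≤
      ∏ p ∈ k.primeFactors.filter (fun p => p ≠ 2), (1 - (p : ℝ)⁻¹) := by
    rw [← prod_filter_mul_prod_filter_not k.primeFactors (fun p => p ≠ 2)]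
    have h2 : ∏ p ∈ k.primeFactors.filter (fun p => ¬ p ≠ 2), (1 - (p : ℝ)⁻¹) ≤ 1 := by
      apply prod_le_one
      · intro p hp
        have hpp := Nat.prime_of_mem_primeFactors (mem_filter.1 hp).1
        have : (p : ℝ)⁻¹ ≤ 1 := inv_le_one_of_one_le₀ (by exact_mod_cast hpp.one_lt.le)
        linarith
      · intro p hp
        have : (0 : ℝ) ≤ (p : ℝ)⁻¹ := by positivity
        linarith
    have h3 : 0 ≤ ∏ p ∈ k.primeFactors.filter (fun p => p ≠ 2), (1 - (p : ℝ)⁻¹) := by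
      apply prod_nonneg
      intro p hp
      have hpp := Nat.prime_of_mem_primeFactors (mem_filter.1 hp).1
      have : (p : ℝ)⁻¹ ≤ 1 := inv_le_one_of_one_le₀ (by exact_mod_cast hpp.one_lt.le)
      linarith
    calc _ ≤ (∏ p ∈ k.primeFactors.filter (fun p => p ≠ 2), (1 - (p : ℝ)⁻¹)) * 1 :=
          mul_le_mul_of_nonneg_left h2 h3
      _ = _ := mul_one _
  refine h1.trans (prod_le_prod ?_ ?_)
  · intro p hp
    have hpp := Nat.prime_of_mem_primeFactors (mem_filter.1 hp).1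
    have : (p : ℝ)⁻¹ ≤ 1 := inv_le_one_of_one_le₀ (by exact_mod_cast hpp.one_lt.le)
    linarith
  · intro p hp
    have hpp := Nat.prime_of_mem_primeFactors (mem_filter.1 hp).1
    have hp3' : 3 ≤ p := by
      have := hpp.two_le
      have := (mem_filter.1 hp).2
      omega
    have hp3 : (3 : ℝ) ≤ p := by exact_mod_cast hp3'
    have h7 : (0 : ℝ) < (p : ℝ) - 1 := by linarith
    rcases neg_one_pow_eq_or ℝ ((p - 1) / 2) with h | h <;> rw [h]
    · have h8 : (0 : ℝ) < 1 - 1 / ((p : ℝ) - 1) := by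
        have : (1 : ℝ) / ((p : ℝ) - 1) < 1 := by
          rw [div_lt_one h7]
          linarith
        linarith
      have h9 : 1 ≤ (1 - 1 / ((p : ℝ) - 1))⁻¹ := by
        apply (one_le_inv₀ h8).2
        have : (0 : ℝ) ≤ 1 / ((p : ℝ) - 1) := by positivity
        linarith
      have : (0 : ℝ) ≤ (p : ℝ)⁻¹ := by positivity
      linarith
    · apply le_of_eq
      have h10 : (p : ℝ) ≠ 0 := by linarith
      have h11 : (1 - -1 / ((p : ℝ) - 1)) = p / (p - 1) := by
        field_simp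
        ring
      rw [h11, inv_div]
      field_simp

/-- upper bound for the factor in terms of `k / φ(k)` -/
lemma factor_upper (k : ℕ) : factor k ≤ ((∏ p ∈ k.primeFactors, (1 - (p : ℝ)⁻¹))⁻¹) ^ 2 := by
  rw [← prod_inv_distrib, ← prod_pow]
  unfold factor
  have hge : ∀ p ∈ k.primeFactors, 1 ≤ ((1 - (p : ℝ)⁻¹)⁻¹) ^ 2 := by
    intro p hp
    have hpp := Nat.prime_of_mem_primeFactors hp
    have h1 : (p : ℝ)⁻¹ < 1 := inv_lt_one_of_one_lt₀ (by exact_mod_cast hpp.one_lt)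
    have h2 : (0 : ℝ) ≤ (p : ℝ)⁻¹ := by positivity
    exact one_le_pow₀ ((one_le_inv₀ (by linarith)).2 (by linarith))
  have hsplit : ∏ p ∈ k.primeFactors.filter (fun p => p ≠ 2), ((1 - (p : ℝ)⁻¹)⁻¹) ^ 2 ≤
      ∏ p ∈ k.primeFactors, ((1 - (p : ℝ)⁻¹)⁻¹) ^ 2 := by
    rw [← prod_filter_mul_prod_filter_not k.primeFactors (fun p => p ≠ 2) (fun p : ℕ => ((1 - (p : ℝ)⁻¹)⁻¹) ^ 2)]
    have h2 : 1 ≤ ∏ p ∈ k.primeFactors.filter (fun p => ¬ p ≠ 2), ((1 - (p : ℝ)⁻¹)⁻¹) ^ 2 := by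
      refine Finset.prod_induction _ (fun x : ℝ => 1 ≤ x) (fun a b ha hb => one_le_mul_of_one_le_of_one_le ha hb)
        le_rfl (fun p hp => ?_)
      exact hge p (mem_filter.1 hp).1
    have h3 : 0 ≤ ∏ p ∈ k.primeFactors.filter (fun p => p ≠ 2), ((1 - (p : ℝ)⁻¹)⁻¹) ^ 2 :=
      prod_nonneg fun p _ => by positivity
    exact le_mul_of_one_le_right h3 h2
  refine le_trans ?_ hsplit
  · apply Finset.prod_le_prod
    · intro p hp
      have hpp := Nat.prime_of_mem_primeFactors (mem_filter.1 hp).1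
      have hp3' : 3 ≤ p := by
        have := hpp.two_le
        have := (mem_filter.1 hp).2
        omega
      have hp3 : (3 : ℝ) ≤ p := by exact_mod_cast hp3'
      rw [inv_nonneg]
      rcases neg_one_pow_eq_or ℝ ((p - 1) / 2) with h | h <;> rw [h]
      · have : (1 : ℝ) / ((p : ℝ) - 1) < 1 := by
          rw [div_lt_one (by linarith)]
          linarith
        linarith
      · have : (-1 : ℝ) / ((p : ℝ) - 1) < 0 := div_neg_of_neg_of_pos (by norm_num) (by linarith)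
        linarith
    · intro p hp
      have hpp := Nat.prime_of_mem_primeFactors (mem_filter.1 hp).1
      have hp3' : 3 ≤ p := by
        have := hpp.two_le
        have := (mem_filter.1 hp).2
        omega
      have hp3 : (3 : ℝ) ≤ p := by exact_mod_cast hp3'
      have h7 : (0 : ℝ) < (p : ℝ) - 1 := by linarith
      have hpos : (0 : ℝ) < 1 - (p : ℝ)⁻¹ := by
        have : (p : ℝ)⁻¹ < 1 := inv_lt_one_of_one_lt₀ (by linarith)
        linarith
      rw [inv_pow]
      apply inv_anti₀ (by positivity)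
      have e1 : (1 - (p : ℝ)⁻¹) = (p - 1) / p := by field_simp
      rcases neg_one_pow_eq_or ℝ ((p - 1) / 2) with h | h <;> rw [h]
      · rw [e1, div_pow]
        have e2 : (1 - 1 / ((p : ℝ) - 1)) = (p - 2) / (p - 1) := by
          field_simp
          ring
        rw [e2, div_le_div_iff₀ (by positivity) h7]
        have h8 : (p : ℝ) - 1 ≤ p := by linarith
        nlinarith [mul_nonneg h7.le h7.le, mul_nonneg (mul_nonneg h7.le h7.le) h7.le]
      · have h8 : (0 : ℝ) ≤ (p : ℝ)⁻¹ := by positivity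
        have h9 : (-1 : ℝ) / ((p : ℝ) - 1) < 0 := div_neg_of_neg_of_pos (by norm_num) (by linarith)
        have h10 : (1 - (p : ℝ)⁻¹) ^ 2 ≤ 1 := pow_le_one₀ hpos.le (by linarith)
        linarith

end Pool.Agent.J6H29.GT
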