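import Pool.Agent.J6H29.GT.Dens
import Pool.Agent.J6H29.GT.VB
import Pool.Agent.Results.MP_7169d5_nt.ExactlyRPrimes

/-!
# Progressions in the sets of the `n` with `n² + k²` prime, or with exactly `r` prime factors, for almost all `k`
-/

set_option autoImplicit false

open Finset Filter Topology

namespace Pool.Agent.J6H29.GT

open Pool.Agent.Y677.RSZ (rt V)
open Pool.Agent.Results.MP_484c84_nt.ThinFamilySquareShifts (partialC factor count)

lemma totient_frac (k : ℕ) (hk : 1 ≤ k) : ∏ p ∈ k.primeFactors, (1 - (p : ℝ)⁻¹) = (Nat.totient k : ℝ) / k := by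
  have h1 := Nat.totient_eq_mul_prod_factors k
  have h2 : (Nat.totient k : ℝ) = (k : ℝ) * ∏ p ∈ k.primeFactors, (1 - (p : ℝ)⁻¹) := by
    have h4 := congrArg (fun x : ℚ => (x : ℝ)) h1
    push_cast at h4
    exact h4
  have h3 : (k : ℝ) ≠ 0 := by exact_mod_cast (by omega : k ≠ 0)
  rw [h2, mul_div_assoc, mul_comm, div_mul_cancel₀ _ h3]

lemma li_lower (N : ℝ) (hN : 4 ≤ N) : N / (2 * Real.log N) ≤ ∫ t in (2 : ℝ)..N, 1 / Real.log t := by
  have hlog : 0 < Real.log N := Real.log_pos (by linarith)
  have hcont : ContinuousOn (fun t : ℝ => 1 / Real.log t) (Set.uIcc 2 N) := by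
    apply ContinuousOn.div continuousOn_const
    · apply Real.continuousOn_log.mono
      intro t ht
      rw [Set.uIcc_of_le (by linarith)] at ht
      simp only [Set.mem_compl_iff, Set.mem_singleton_iff]
      linarith [ht.1]
    · intro t ht
      rw [Set.uIcc_of_le (by linarith)] at ht
      exact (Real.log_pos (by linarith [ht.1])).ne'
  have h1 : ∫ _t in (2 : ℝ)..N, 1 / Real.log N ≤ ∫ t in (2 : ℝ)..N, 1 / Real.log t := by
    apply intervalIntegral.integral_mono_on (by linarith)
    · exact intervalIntegrable_const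
    · exact hcont.intervalIntegrable
    · intro t ht
      apply one_div_le_one_div_of_le (Real.log_pos (by linarith [ht.1]))
      exact Real.log_le_log (by linarith [ht.1]) ht.2
  rw [intervalIntegral.integral_const, smul_eq_mul] at h1
  refine le_trans ?_ h1
  rw [div_le_iff₀ (by positivity), mul_assoc, mul_comm (1 / Real.log N), mul_assoc, mul_one_div, div_self hlog.ne']
  linarith

/-- the numbers `n ≤ N` with `n² + k²` prime -/
noncomputable def SP (k : ℕ) (N : ℝ) : Finset ℕ := (Icc 1 ⌊N⌋₊).filter (fun n => (n ^ 2 + k ^ 2).Prime)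

lemma count_SP (k : ℕ) (N : ℝ) (hN : 0 ≤ N) : (count k N : ℝ) = (SP k N).card := by
  have h1 : {n : ℕ | 1 ≤ n ∧ (n : ℝ) ≤ N ∧ (n ^ 2 + k ^ 2).Prime} = ((SP k N : Finset ℕ) : Set ℕ) := by
    ext n
    unfold SP
    simp only [Set.mem_ofPred_eq, coe_filter, mem_Icc]
    rw [Nat.le_floor_iff hN, and_assoc]
  unfold count
  rw [h1, Set.ncard_coe_finset]

/-- arithmetic progressions of length `l` and common difference at most `D` in `T` -/
def HasAP (l : ℕ) (D : ℝ) (T : Finset ℕ) : Prop := ∃ a d : ℕ, 1 ≤ d ∧ (d : ℝ) ≤ D ∧ ∀ i < l, a + i * d ∈ T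

theorem part1 (ε η : ℝ) (l : ℕ) (hε : 0 < ε) (hη : 0 < η) : ∃ c : ℝ, 0 < c ∧ ∃ B : ℕ, ∀ A : ℕ, ∃ K₀ : ℝ, ∀ K : ℝ,
    K₀ ≤ K → ∃ E : Finset ℕ, (E.card : ℝ) ≤ K / Real.log K ^ A ∧ ∀ k ∈ Icc 1 ⌊K⌋₊, k ∉ E →
      ∀ N : ℝ, K ^ (1 + ε) ≤ N → N ≤ K ^ (2 - ε) →
        c * ((Nat.totient k : ℝ) / k) * (N / Real.log N) ≤ (SP k N).card ∧
        ∀ T ⊆ SP k N, η * (SP k N).card ≤ T.card → HasAP l (Real.log N ^ B) T := by
  classical
  obtain ⟨C, hC, hlim, hthin⟩ := Pool.Agent.Results.MP_484c84_nt.ThinFamilySquareShifts.result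
  obtain ⟨M, hM⟩ := hlim.bddAbove_range
  have hM' : ∀ z, partialC z ≤ M := fun z => hM ⟨z, rfl⟩
  have hMC : C ≤ M := le_of_tendsto' hlim hM'
  have hM0 : 0 < M := hC.trans_le hMC
  obtain ⟨B, H₀, hD⟩ := dens l 1 (1 / 2) (η * C / (32 * M)) (by norm_num) (by positivity)
  refine ⟨C / 8, by positivity, B, fun A => ?_⟩
  obtain ⟨K₁, hK₁⟩ := hthin ε (max A 3) hε
  have hsq : ∀ᶠ K : ℝ in atTop, 96 / (C * η) * Real.log K ^ 2 ≤ K ^ (1 / 2 : ℝ) := by
    have h1 := (isLittleO_log_rpow_rpow_atTop (2 : ℝ) (show (0 : ℝ) < 1 / 2 by norm_num)).bound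
      (show (0 : ℝ) < C * η / 96 by positivity)
    filter_upwards [h1, eventually_ge_atTop (1 : ℝ)] with K h2 h3
    have h4 : 0 ≤ Real.log K := Real.log_nonneg h3
    rw [Real.norm_of_nonneg (by positivity), Real.norm_of_nonneg (by positivity)] at h2
    have h5 : Real.log K ^ (2 : ℝ) = Real.log K ^ 2 := by exact_mod_cast Real.rpow_natCast (Real.log K) 2
    rw [h5] at h2
    calc 96 / (C * η) * Real.log K ^ 2 ≤ 96 / (C * η) * (C * η / 96 * K ^ (1 / 2 : ℝ)) :=
          mul_le_mul_of_nonneg_left h2 (by positivity)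
      _ = K ^ (1 / 2 : ℝ) := by field_simp
  obtain ⟨K₂, hK₂⟩ := eventually_atTop.1 (((Real.tendsto_log_atTop.eventually_ge_atTop (max 1 (48 / C))).and hsq).and
    (eventually_ge_atTop ((H₀ : ℝ) + 5)))
  refine ⟨max K₁ K₂, fun K hK => ?_⟩
  obtain ⟨⟨f1, f2⟩, f3⟩ := hK₂ K ((le_max_right _ _).trans hK)
  have hlK1 : 1 ≤ Real.log K := (le_max_left _ _).trans f1
  have hlKC : 48 / C ≤ Real.log K := (le_max_right _ _).trans f1
  have hK5 : 5 ≤ K := by
    have : (0 : ℝ) ≤ H₀ := Nat.cast_nonneg _
    linarith
  have hK0 : 0 < K := by linarith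
  have hK1 : 1 ≤ K := by linarith
  refine ⟨(Icc 1 ⌊K⌋₊).filter (fun k => ¬ Pool.Agent.Results.MP_484c84_nt.ThinFamilySquareShifts.Good C ε (max A 3) K k),
    ?_, ?_⟩
  · have h1 := hK₁ K ((le_max_left _ _).trans hK)
    unfold Pool.Agent.Results.MP_484c84_nt.ThinFamilySquareShifts.exceptions at h1
    refine le_trans (by convert h1) ?_
    apply div_le_div_of_nonneg_left hK0.le (by positivity)
    exact pow_le_pow_right₀ hlK1 (le_max_left _ _)
  · intro k hk hkE N hN1 hN2
    have hgood : Pool.Agent.Results.MP_484c84_nt.ThinFamilySquareShifts.Good C ε (max A 3) K k := by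
      by_contra hcon
      exact hkE (mem_filter.2 ⟨hk, hcon⟩)
    have hNK : K ≤ N := by
      refine le_trans ?_ hN1
      calc K = K ^ (1 : ℝ) := (Real.rpow_one K).symm
        _ ≤ K ^ (1 + ε) := Real.rpow_le_rpow_of_exponent_le hK1 (by linarith)
    have hN5 : 5 ≤ N := hK5.trans hNK
    have hN0 : 0 < N := by linarith
    have hlN : 0 < Real.log N := Real.log_pos (by linarith)
    have hlN2 : Real.log N ≤ 2 * Real.log K := by
      have h1 : N ≤ K ^ (2 : ℝ) := hN2.trans (Real.rpow_le_rpow_of_exponent_le hK1 (by linarith))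
      have h2 := Real.log_le_log hN0 h1
      rwa [Real.log_rpow hK0] at h2
    rw [mem_Icc, Nat.le_floor_iff hK0.le] at hk
    obtain ⟨hk1, hkK⟩ := hk
    have hkr : (1 : ℝ) ≤ k := by exact_mod_cast hk1
    obtain ⟨H, hH⟩ : ∃ H : ℕ, H = ⌊N⌋₊ := ⟨_, rfl⟩
    have hHN : (H : ℝ) ≤ N := by rw [hH]; exact Nat.floor_le hN0.le
    have hHN' : N < H + 1 := by rw [hH]; exact Nat.lt_floor_add_one N
    have hH4 : (4 : ℝ) ≤ H := by
      have : 5 ≤ H := by rw [hH]; exact Nat.le_floor (by exact_mod_cast hN5)
      exact_mod_cast (by omega : 4 ≤ H)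
    have hkH : k ≤ H := by rw [hH]; exact Nat.le_floor (hkK.trans hNK)
    have hH0 : H₀ ≤ H := by rw [hH]; exact Nat.le_floor (by linarith)
    have hlH : Real.log N ≤ 2 * Real.log H := by
      have h1 : N ≤ (H : ℝ) ^ 2 := by nlinarith
      have h2 := Real.log_le_log hN0 h1
      rw [Real.log_pow] at h2
      exact_mod_cast h2
    have hlH0 : 0 < Real.log H := by linarith
    -- the lower bound for the number of elements
    obtain ⟨φ, hφ⟩ : ∃ φ : ℝ, φ = factor k := ⟨_, rfl⟩
    have hfl : (Nat.totient k : ℝ) / k ≤ φ := by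
      rw [hφ, ← totient_frac k hk1]
      exact factor_lower k
    have hfl2 : 1 / (3 * Real.log K) ≤ (Nat.totient k : ℝ) / k := by
      rw [← totient_frac k hk1]
      refine le_trans ?_ (frac_lower k hk1)
      apply one_div_le_one_div_of_le
      · have : 0 ≤ Real.log k := Real.log_nonneg hkr
        linarith
      · have : Real.log k ≤ Real.log K := Real.log_le_log (by linarith) hkK
        linarith
    have hφ0 : 0 < φ := lt_of_lt_of_le (by positivity) (hfl2.trans hfl)
    have hcnt : C / 8 * φ * (N / Real.log N) ≤ (SP k N).card := by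
      have h1 := hgood N hN1 hN2
      rw [← hφ, count_SP k N hN0.le] at h1
      have h2 := (abs_le.1 h1).1
      have h3 := li_lower N (by linarith)
      have h4 : 1 / 2 * (C * φ) * (N / (2 * Real.log N)) ≤
          1 / 2 * (C * φ) * ∫ t in (2 : ℝ)..N, 1 / Real.log t :=
        mul_le_mul_of_nonneg_left h3 (by positivity)
      have h5 : N / Real.log K ^ (max A 3) ≤ C / 8 * φ * (N / Real.log N) := by
        have h6 : Real.log K ^ 3 ≤ Real.log K ^ (max A 3) := pow_le_pow_right₀ hlK1 (le_max_right _ _)
        have h7 : N / Real.log K ^ (max A 3) ≤ N / Real.log K ^ 3 :=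
          div_le_div_of_nonneg_left hN0.le (by positivity) h6
        refine h7.trans ?_
        have h8 : 1 / (3 * Real.log K) ≤ φ := hfl2.trans hfl
        have h9 : N / (2 * Real.log K) ≤ N / Real.log N := div_le_div_of_nonneg_left hN0.le hlN hlN2
        calc N / Real.log K ^ 3 ≤ C / 8 * (1 / (3 * Real.log K)) * (N / (2 * Real.log K)) := by
              rw [div_mul_div_comm, div_mul_div_comm, div_le_div_iff₀ (by positivity) (by positivity)]
              rw [div_le_iff₀ hC] at hlKC
              have h10 : 48 * Real.log K ^ 2 ≤ Real.log K * C * Real.log K ^ 2 :=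
                mul_le_mul_of_nonneg_right hlKC (by positivity)
              have h11 := mul_le_mul_of_nonneg_left h10 hN0.le
              calc N * (8 * (3 * Real.log K) * (2 * Real.log K)) = N * (48 * Real.log K ^ 2) := by ring
                _ ≤ N * (Real.log K * C * Real.log K ^ 2) := h11
                _ = C * 1 * N * Real.log K ^ 3 := by ring
          _ ≤ C / 8 * φ * (N / Real.log N) := by
              apply mul_le_mul _ h9 (by positivity) (by positivity)
              exact mul_le_mul_of_nonneg_left h8 (by positivity)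
      have h12 : 1 / 2 * (C * φ) * (N / (2 * Real.log N)) = 2 * (C / 8 * φ * (N / Real.log N)) := by
        field_simp
        ring
      linarith
    refine ⟨le_trans ?_ hcnt, ?_⟩
    · apply mul_le_mul_of_nonneg_right _ (by positivity)
      exact mul_le_mul_of_nonneg_left hfl (by positivity)
    · intro T hT hTc
      -- the sieve product
      have hV : V (Gq k) 1 H ≤ M * φ / Real.log H := by
        refine (V_le k H hk1 hkH (by exact_mod_cast (by linarith : (2 : ℝ) ≤ H))).trans ?_
        rw [← hφ]
        apply div_le_div_of_nonneg_right _ hlH0.le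
        exact mul_le_mul_of_nonneg_right (hM' H) hφ0.le
      have hHV : H * V (Gq k) 1 H ≤ 2 * M * φ * (N / Real.log N) := by
        have h1 : (H : ℝ) * V (Gq k) 1 H ≤ N * (M * φ / Real.log H) := by
          apply mul_le_mul hHN hV _ hN0.le
          exact (Pool.Agent.K3h89.SZ.V_posP (sysG k 2 le_rfl) 1 H).le
        refine h1.trans ?_
        have h2 : 1 / Real.log H ≤ 2 / Real.log N := by
          rw [div_le_div_iff₀ hlH0 hlN]
          linarith
        calc N * (M * φ / Real.log H) = N * (M * φ) * (1 / Real.log H) := by ring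
          _ ≤ N * (M * φ) * (2 / Real.log N) := mul_le_mul_of_nonneg_left h2 (by positivity)
          _ = 2 * M * φ * (N / Real.log N) := by ring
      -- the large elements
      obtain ⟨T', hT'⟩ : ∃ T' : Finset ℕ, T' = T.filter (fun n => Nat.sqrt H < n) := ⟨_, rfl⟩
      have hT'c : (T.card : ℝ) ≤ T'.card + Nat.sqrt H := by
        have h1 := card_filter_add_card_filter_not (s := T) (fun n => Nat.sqrt H < n)
        have h2 : (T.filter (fun n => ¬ Nat.sqrt H < n)).card ≤ Nat.sqrt H := by
          have h3 : T.filter (fun n => ¬ Nat.sqrt H < n) ⊆ Icc 1 (Nat.sqrt H) := by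
            intro n hn
            rw [mem_filter] at hn
            have h4 := hT hn.1
            unfold SP at h4
            rw [mem_filter, mem_Icc] at h4
            rw [mem_Icc]
            exact ⟨h4.1.1, not_lt.1 hn.2⟩
          have := card_le_card h3
          rwa [Nat.card_Icc, Nat.add_sub_cancel] at this
        have h5 : T.card ≤ T'.card + Nat.sqrt H := by
          rw [hT']
          omega
        exact_mod_cast h5
      have hsqrt : (Nat.sqrt H : ℝ) ≤ η / 2 * (SP k N).card := by
        have h1 : (Nat.sqrt H : ℝ) ≤ √N := by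
          refine le_trans Real.nat_sqrt_le_real_sqrt (Real.sqrt_le_sqrt hHN)
        refine h1.trans ?_
        have h2 : C / 8 * (1 / (3 * Real.log K)) * (N / (2 * Real.log K)) ≤ (SP k N).card := by
          refine le_trans ?_ hcnt
          have h8 : 1 / (3 * Real.log K) ≤ φ := hfl2.trans hfl
          have h9 : N / (2 * Real.log K) ≤ N / Real.log N := div_le_div_of_nonneg_left hN0.le hlN hlN2
          apply mul_le_mul _ h9 (by positivity) (by positivity)
          exact mul_le_mul_of_nonneg_left h8 (by positivity)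
        have h3 : 96 / (C * η) * Real.log K ^ 2 ≤ √N := by
          refine f2.trans ?_
          rw [← Real.sqrt_eq_rpow]
          exact Real.sqrt_le_sqrt hNK
        have h4 : √N * √N = N := Real.mul_self_sqrt hN0.le
        have h5 : √N ≤ η / 2 * (C / 8 * (1 / (3 * Real.log K)) * (N / (2 * Real.log K))) := by
          have h6 : η / 2 * (C / 8 * (1 / (3 * Real.log K)) * (N / (2 * Real.log K))) =
              (C * η / 96 / Real.log K ^ 2 * √N) * √N := by
            rw [mul_assoc _ (√N) (√N), h4]
            field_simp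
            ring
          rw [h6]
          have h7 : 1 ≤ C * η / 96 / Real.log K ^ 2 * √N := by
            calc (1 : ℝ) = C * η / 96 / Real.log K ^ 2 * (96 / (C * η) * Real.log K ^ 2) := by
                  field_simp
              _ ≤ _ := mul_le_mul_of_nonneg_left h3 (by positivity)
          exact le_mul_of_one_le_left (Real.sqrt_nonneg N) h7
        exact h5.trans (mul_le_mul_of_nonneg_left h2 (by positivity))
      obtain ⟨a, d, hd1, hd2, hAP⟩ := hD k 0 H T' hH0 hk1 (by rw [pow_one]; exact hkH) (Nat.zero_le _)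
        (by
          intro n hn
          rw [hT', mem_filter] at hn
          have h4 := hT hn.1
          unfold SP at h4
          rw [mem_filter, mem_Icc, ← hH] at h4
          rw [mem_Ioc, zero_add]
          exact ⟨by omega, h4.1.2⟩)
        (by
          intro n hn p hp hpH hpd
          rw [hT', mem_filter] at hn
          have h4 := hT hn.1
          unfold SP at h4
          rw [mem_filter, mem_Icc] at h4
          have h5 := (Nat.prime_dvd_prime_iff_eq hp h4.2).1 hpd
          have h6 : H < n ^ 2 := by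
            have := Nat.sqrt_lt'.1 hn.2
            exact this
          have h7 : H < p := by
            rw [h5]
            omega
          have h8 : (H : ℝ) < p := by exact_mod_cast h7
          have h9 : (H : ℝ) ^ (1 / 2 : ℝ) ≤ H := by
            calc (H : ℝ) ^ (1 / 2 : ℝ) ≤ (H : ℝ) ^ (1 : ℝ) :=
                  Real.rpow_le_rpow_of_exponent_le (by linarith) (by norm_num)
              _ = H := Real.rpow_one _
          linarith)
        (by
          have h1 : η * C / (32 * M) * (H * V (Gq k) 1 H) ≤ η / 2 * (SP k N).card := by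
            calc η * C / (32 * M) * (H * V (Gq k) 1 H) ≤ η * C / (32 * M) * (2 * M * φ * (N / Real.log N)) :=
                  mul_le_mul_of_nonneg_left hHV (by positivity)
              _ = η / 2 * (C / 8 * φ * (N / Real.log N)) := by
                  field_simp
                  ring
              _ ≤ η / 2 * (SP k N).card := mul_le_mul_of_nonneg_left hcnt (by positivity)
          linarith)
      refine ⟨a, d, hd1, hd2.trans ?_, fun i hi => ?_⟩
      · exact pow_le_pow_left₀ hlH0.le (Real.log_le_log (by linarith) hHN) B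
      · have := hAP i hi
        rw [hT', mem_filter] at this
        exact this.1

end Pool.Agent.J6H29.GT
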