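import Pool.Agent.J6H29.GT.Fin

/-!
# Progressions in the sets of the `n` with `n² + k²` the product of exactly `r` primes, for almost all `k`
-/

set_option autoImplicit false

open Finset Filter Topology

namespace Pool.Agent.J6H29.GT

open Pool.Agent.Y677.RSZ (rt V)
open Pool.Agent.Results.MP_484c84_nt.ThinFamilySquareShifts (partialC factor)

open Classical in
/-- the numbers `n ≤ N` with `n² + k²` the product of exactly `r` different primes, all larger than `y` -/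
noncomputable def SR (r : ℕ) (y : ℝ) (k : ℕ) (N : ℝ) : Finset ℕ :=
  (Icc 1 ⌊N⌋₊).filter (fun n => Squarefree (n ^ 2 + k ^ 2) ∧ (n ^ 2 + k ^ 2).primeFactors.card = r ∧
    ∀ p ∈ (n ^ 2 + k ^ 2).primeFactors, y < (p : ℝ))

lemma count_SR (r : ℕ) (y : ℝ) (k : ℕ) (N : ℝ) (hN : 0 ≤ N) :
    Pool.Agent.Results.MP_7169d5_nt.ExactlyRPrimes.count r y k N = (SR r y k N).card := by
  classical
  have h1 : {n : ℕ | 1 ≤ n ∧ (n : ℝ) ≤ N ∧ Squarefree (n ^ 2 + k ^ 2) ∧ (n ^ 2 + k ^ 2).primeFactors.card = r ∧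
    ∀ p ∈ (n ^ 2 + k ^ 2).primeFactors, y < (p : ℝ)} = ((SR r y k N : Finset ℕ) : Set ℕ) := by
    ext n
    unfold SR
    simp only [Set.mem_ofPred_eq, coe_filter, mem_Icc]
    rw [Nat.le_floor_iff hN, and_assoc]
  unfold Pool.Agent.Results.MP_7169d5_nt.ExactlyRPrimes.count
  rw [h1, Set.ncard_coe_finset]

theorem part2 (r : ℕ) (hr : 3 ≤ r) (ε E M₁ : ℝ) (hε : 0 < ε) : ∃ c : ℝ, 0 < c ∧ ∀ (η : ℝ) (l : ℕ), 0 < η →
    ∃ B : ℕ, ∀ A : ℕ, ∃ K₀ : ℝ, ∀ K : ℝ,
    K₀ ≤ K → ∃ X : Finset ℕ, (X.card : ℝ) ≤ K / Real.log K ^ A ∧ ∀ k ∈ Icc 1 ⌊K⌋₊, k ∉ X →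
      ∀ N : ℝ, K ^ (1 + ε) ≤ N → N ≤ K ^ E →
        c * ((Nat.totient k : ℝ) / k) * (N / Real.log N) ≤ (SR r (N ^ c) k N).card ∧
        ((k : ℝ) ≤ M₁ * Nat.totient k → ∀ T ⊆ SR r (N ^ c) k N, η * (SR r (N ^ c) k N).card ≤ T.card →
          HasAP l (Real.log N ^ B) T) := by
  classical
  obtain ⟨c, hc, hres⟩ := Pool.Agent.Results.MP_7169d5_nt.ExactlyRPrimes.result r hr ε E hε
  obtain ⟨C, hC, hlim, -⟩ := Pool.Agent.Results.MP_484c84_nt.ThinFamilySquareShifts.result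
  obtain ⟨M, hM⟩ := hlim.bddAbove_range
  have hM' : ∀ z, partialC z ≤ M := fun z => hM ⟨z, rfl⟩
  have hMC : C ≤ M := le_of_tendsto' hlim hM'
  have hM0 : 0 < M := hC.trans_le hMC
  refine ⟨c, hc, fun η l hη => ?_⟩
  obtain ⟨M₂, hM₂⟩ : ∃ M₂ : ℝ, M₂ = max M₁ 1 := ⟨_, rfl⟩
  have hM₂1 : 1 ≤ M₂ := by rw [hM₂]; exact le_max_right _ _
  have hM₂0 : 0 < M₂ := by linarith
  obtain ⟨B, H₀, hD⟩ := dens l 1 c (η * c / (2 * M * M₂ ^ 3)) hc (by positivity)
  refine ⟨B, fun A => ?_⟩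
  obtain ⟨K₁, hK₁⟩ := hres A
  refine ⟨max K₁ ((H₀ : ℝ) + 5), fun K hK => ?_⟩
  have f3 : (H₀ : ℝ) + 5 ≤ K := (le_max_right _ _).trans hK
  have hK5 : 5 ≤ K := by
    have : (0 : ℝ) ≤ H₀ := Nat.cast_nonneg _
    linarith
  have hK0 : 0 < K := by linarith
  have hK1 : 1 ≤ K := by linarith
  refine ⟨(Icc 1 ⌊K⌋₊).filter (fun k => ¬ Pool.Agent.Results.MP_7169d5_nt.ExactlyRPrimes.Good r c ε E K k), ?_, ?_⟩
  · have h1 := hK₁ K ((le_max_left _ _).trans hK)
    unfold Pool.Agent.Results.MP_7169d5_nt.ExactlyRPrimes.exceptions at h1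
    convert h1
  · intro k hk hkE N hN1 hN2
    have hgood : Pool.Agent.Results.MP_7169d5_nt.ExactlyRPrimes.Good r c ε E K k := by
      by_contra hcon
      exact hkE (mem_filter.2 ⟨hk, hcon⟩)
    have hNK : K ≤ N := by
      refine le_trans ?_ hN1
      calc K = K ^ (1 : ℝ) := (Real.rpow_one K).symm
        _ ≤ K ^ (1 + ε) := Real.rpow_le_rpow_of_exponent_le hK1 (by linarith)
    have hN5 : 5 ≤ N := hK5.trans hNK
    have hN0 : 0 < N := by linarith
    have hlN : 0 < Real.log N := Real.log_pos (by linarith)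
    rw [mem_Icc, Nat.le_floor_iff hK0.le] at hk
    obtain ⟨hk1, hkK⟩ := hk
    have hkr : (1 : ℝ) ≤ k := by exact_mod_cast hk1
    obtain ⟨H, hH⟩ : ∃ H : ℕ, H = ⌊N⌋₊ := ⟨_, rfl⟩
    have hHN : (H : ℝ) ≤ N := by rw [hH]; exact Nat.floor_le hN0.le
    have hHN' : N < H + 1 := by rw [hH]; exact Nat.lt_floor_add_one N
    have hH4 : (4 : ℝ) ≤ H := by
      have : 5 ≤ H := by rw [hH]; exact Nat.le_floor (by exact_mod_cast hN5)
      exact_mod_cast (by omega : 4 ≤ H)
    have hkH : k ≤ H := by rw [hH]; exact Nat.le_floor (hkK.trans hNK)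
    have hH0 : H₀ ≤ H := by rw [hH]; exact Nat.le_floor (by linarith)
    have hlH : Real.log N ≤ 2 * Real.log H := by
      have h1 : N ≤ (H : ℝ) ^ 2 := by nlinarith
      have h2 := Real.log_le_log hN0 h1
      rw [Real.log_pow] at h2
      exact_mod_cast h2
    have hlH0 : 0 < Real.log H := by linarith
    have hcnt : c * ((Nat.totient k : ℝ) / k) * (N / Real.log N) ≤ (SR r (N ^ c) k N).card := by
      have h1 := hgood N hN1 hN2
      rw [count_SR r (N ^ c) k N hN0.le] at h1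
      exact h1
    refine ⟨hcnt, fun hkM T hT hTc => ?_⟩
    have hkM2 : (k : ℝ) ≤ M₂ * Nat.totient k := by
      refine hkM.trans (mul_le_mul_of_nonneg_right ?_ (Nat.cast_nonneg _))
      rw [hM₂]
      exact le_max_left _ _
    have hfr : 1 / M₂ ≤ (Nat.totient k : ℝ) / k := by
      rw [div_le_div_iff₀ hM₂0 (by linarith)]
      linarith
    -- the sieve product
    obtain ⟨φ, hφ⟩ : ∃ φ : ℝ, φ = factor k := ⟨_, rfl⟩
    have hφ2 : φ ≤ M₂ ^ 2 := by
      rw [hφ]
      refine (factor_upper k).trans ?_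
      rw [totient_frac k hk1]
      have h1 : 0 < (Nat.totient k : ℝ) / k := lt_of_lt_of_le (by positivity) hfr
      apply pow_le_pow_left₀ (by positivity)
      rw [inv_le_comm₀ h1 hM₂0]
      rwa [one_div] at hfr
    have hφ0 : 0 ≤ φ := by
      rw [hφ]
      refine le_trans ?_ (factor_lower k)
      rw [totient_frac k hk1]
      positivity
    have hV : V (Gq k) 1 H ≤ M * M₂ ^ 2 / Real.log H := by
      refine (V_le k H hk1 hkH (by exact_mod_cast (by linarith : (2 : ℝ) ≤ H))).trans ?_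
      rw [← hφ]
      apply div_le_div_of_nonneg_right _ hlH0.le
      exact mul_le_mul (hM' H) hφ2 hφ0 hM0.le
    have hHV : H * V (Gq k) 1 H ≤ 2 * M * M₂ ^ 2 * (N / Real.log N) := by
      have h1 : (H : ℝ) * V (Gq k) 1 H ≤ N * (M * M₂ ^ 2 / Real.log H) := by
        apply mul_le_mul hHN hV _ hN0.le
        exact (Pool.Agent.K3h89.SZ.V_posP (sysG k 2 le_rfl) 1 H).le
      refine h1.trans ?_
      have h2 : 1 / Real.log H ≤ 2 / Real.log N := by
        rw [div_le_div_iff₀ hlH0 hlN]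
        linarith
      calc N * (M * M₂ ^ 2 / Real.log H) = N * (M * M₂ ^ 2) * (1 / Real.log H) := by ring
        _ ≤ N * (M * M₂ ^ 2) * (2 / Real.log N) := mul_le_mul_of_nonneg_left h2 (by positivity)
        _ = 2 * M * M₂ ^ 2 * (N / Real.log N) := by ring
    obtain ⟨a, d, hd1, hd2, hAP⟩ := hD k 0 H T hH0 hk1 (by rw [pow_one]; exact hkH) (Nat.zero_le _)
      (by
        intro n hn
        have h4 := hT hn
        unfold SR at h4
        rw [mem_filter, mem_Icc, ← hH] at h4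
        rw [mem_Ioc, zero_add]
        exact ⟨by omega, h4.1.2⟩)
      (by
        intro n hn p hp hpH hpd
        have h4 := hT hn
        unfold SR at h4
        rw [mem_filter] at h4
        have h5 : p ∈ (n ^ 2 + k ^ 2).primeFactors :=
          Nat.mem_primeFactors.2 ⟨hp, hpd, by positivity⟩
        have h6 := h4.2.2.2 p h5
        have h7 : (H : ℝ) ^ c ≤ N ^ c := Real.rpow_le_rpow (Nat.cast_nonneg H) hHN hc.le
        linarith)
      (by
        have h0 : c * (1 / M₂) * (N / Real.log N) ≤ (SR r (N ^ c) k N).card := by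
          refine le_trans ?_ hcnt
          apply mul_le_mul_of_nonneg_right _ (by positivity)
          exact mul_le_mul_of_nonneg_left hfr hc.le
        calc η * c / (2 * M * M₂ ^ 3) * (H * V (Gq k) 1 H) ≤
              η * c / (2 * M * M₂ ^ 3) * (2 * M * M₂ ^ 2 * (N / Real.log N)) :=
                mul_le_mul_of_nonneg_left hHV (by positivity)
          _ = η * (c * (1 / M₂) * (N / Real.log N)) := by
                field_simp
          _ ≤ η * (SR r (N ^ c) k N).card := mul_le_mul_of_nonneg_left h0 hη.le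
          _ ≤ T.card := hTc)
    refine ⟨a, d, hd1, hd2.trans ?_, hAP⟩
    exact pow_le_pow_left₀ hlH0.le (Real.log_le_log (by linarith) hHN) B

end Pool.Agent.J6H29.GT
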