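import Pool.Agent.J6H29.GT.FinR
import Pool.Agent.Results.MP_484c84_nt.TwoPrimeFormula

/-!
# Progressions in the sets of the `n` with `n² + k²` the product of two primes, for almost all `k`
-/

set_option autoImplicit false

open Finset Filter Topology

namespace Pool.Agent.J6H29.GT

open Pool.Agent.Y677.RSZ (rt V)
open Pool.Agent.Results.MP_484c84_nt.TwoPrimeFormula (weight total)
open Pool.Agent.Results.MP_484c84_nt.ThinFamilySquareShifts (partialC factor)

lemma weight_le (y z : ℝ) (m : ℕ) (L : ℝ) (hz : 1 ≤ z) (hL : Real.log m ≤ L) :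
    weight y z m ≤ 2 * (Real.log z * L) := by
  classical
  unfold weight
  obtain ⟨S, hS⟩ : ∃ S : Finset (ℕ × ℕ), S = m.divisorsAntidiagonal.filter
    (fun c => c.1.Prime ∧ c.2.Prime ∧ y < (c.1 : ℝ) ∧ (c.1 : ℝ) ≤ z) := ⟨_, rfl⟩
  rw [← hS]
  have hlz : 0 ≤ Real.log z := Real.log_nonneg hz
  have hcard : S.card ≤ 2 := by
    by_cases hne : S.Nonempty
    · obtain ⟨c, hc⟩ := hne
      rw [hS, mem_filter, Nat.mem_divisorsAntidiagonal] at hc
      obtain ⟨⟨hc1, hc2⟩, hc3, hc4, -⟩ := hc
      have hsub : S ⊆ {c, (c.2, c.1)} := by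
        intro e he
        rw [hS, mem_filter, Nat.mem_divisorsAntidiagonal] at he
        obtain ⟨⟨he1, he2⟩, he3, he4, -⟩ := he
        have h1 : e.1 ∣ c.1 * c.2 := by rw [hc1, ← he1]; exact Dvd.intro _ rfl
        rw [mem_insert, mem_singleton]
        rcases (he3.dvd_mul).1 h1 with h2 | h2
        · left
          have h3 := (Nat.prime_dvd_prime_iff_eq he3 hc3).1 h2
          apply Prod.ext h3
          have h4 : e.1 * e.2 = e.1 * c.2 := by rw [he1, h3, hc1]
          exact Nat.eq_of_mul_eq_mul_left he3.pos h4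
        · right
          have h3 := (Nat.prime_dvd_prime_iff_eq he3 hc4).1 h2
          apply Prod.ext h3
          have h4 : e.1 * e.2 = e.1 * c.1 := by rw [he1, h3, mul_comm, hc1]
          exact Nat.eq_of_mul_eq_mul_left he3.pos h4
      exact (card_le_card hsub).trans card_le_two
    · rw [not_nonempty_iff_eq_empty] at hne
      rw [hne, card_empty]
      omega
  have hterm : ∀ c ∈ S, Real.log c.1 * Real.log c.2 ≤ Real.log z * L := by
    intro c hc
    rw [hS, mem_filter, Nat.mem_divisorsAntidiagonal] at hc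
    obtain ⟨⟨hc1, hc2⟩, hc3, hc4, -, hc5⟩ := hc
    have h1 : Real.log c.1 ≤ Real.log z := Real.log_le_log (by exact_mod_cast hc3.pos) hc5
    have h2 : Real.log c.2 ≤ L := by
      refine le_trans ?_ hL
      apply Real.log_le_log (by exact_mod_cast hc4.pos)
      have : c.2 ≤ m := by
        rw [← hc1]
        exact Nat.le_mul_of_pos_left _ hc3.pos
      exact_mod_cast this
    exact mul_le_mul h1 h2 (Real.log_natCast_nonneg _) hlz
  by_cases hne : S.Nonempty
  · obtain ⟨c, hc⟩ := hne
    have hpos : 0 ≤ Real.log z * L := le_trans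
      (mul_nonneg (Real.log_natCast_nonneg _) (Real.log_natCast_nonneg _)) (hterm c hc)
    calc ∑ c ∈ S, Real.log c.1 * Real.log c.2 ≤ ∑ _c ∈ S, Real.log z * L := sum_le_sum hterm
      _ = S.card * (Real.log z * L) := by rw [sum_const, nsmul_eq_mul]
      _ ≤ 2 * (Real.log z * L) := mul_le_mul_of_nonneg_right (by exact_mod_cast hcard) hpos
  · rw [not_nonempty_iff_eq_empty] at hne
    rw [hne, sum_empty]
    have : 0 ≤ L := (Real.log_natCast_nonneg m).trans hL
    positivity

lemma weight_nonneg (y z : ℝ) (m : ℕ) : 0 ≤ weight y z m := by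
  unfold weight
  exact sum_nonneg fun c _ => mul_nonneg (Real.log_natCast_nonneg _) (Real.log_natCast_nonneg _)

/-- a number with positive weight is a product of two primes -/
lemma weight_pos {y z : ℝ} {m : ℕ} (h : weight y z m ≠ 0) : ∃ p q : ℕ, p.Prime ∧ q.Prime ∧ m = p * q ∧ y < (p : ℝ) ∧
    (p : ℝ) ≤ z := by
  classical
  unfold weight at h
  obtain ⟨c, hc, -⟩ := exists_ne_zero_of_sum_ne_zero h
  rw [mem_filter, Nat.mem_divisorsAntidiagonal] at hc
  exact ⟨c.1, c.2, hc.2.1, hc.2.2.1, hc.1.1.symm, hc.2.2.2.1, hc.2.2.2.2⟩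

theorem part1b (ε : ℝ) (hε : 0 < ε) : ∃ c : ℝ, 0 < c ∧ ∀ (η : ℝ) (l : ℕ), 0 < η →
    ∃ B : ℕ, ∀ A : ℕ, ∃ K₀ : ℝ, ∀ K : ℝ,
    K₀ ≤ K → ∃ E : Finset ℕ, (E.card : ℝ) ≤ K / Real.log K ^ A ∧ ∀ k ∈ Icc 1 ⌊K⌋₊, k ∉ E →
      ∀ N : ℝ, K ^ (1 + ε) ≤ N → N ≤ K ^ (3 - ε) →
        c * ((Nat.totient k : ℝ) / k) * (N / Real.log N) ≤ (SR 2 (N ^ c) k N).card ∧
        ∀ T ⊆ SR 2 (N ^ c) k N, η * (SR 2 (N ^ c) k N).card ≤ T.card → HasAP l (Real.log N ^ B) T := by
  classical
  obtain ⟨C, hC, hlim', htwo⟩ := Pool.Agent.Results.MP_484c84_nt.TwoPrimeFormula.result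
  have hlim : Tendsto partialC atTop (𝓝 C) := hlim'
  obtain ⟨M, hM⟩ := hlim.bddAbove_range
  have hM' : ∀ z, partialC z ≤ M := fun z => hM ⟨z, rfl⟩
  have hMC : C ≤ M := le_of_tendsto' hlim hM'
  have hM0 : 0 < M := hC.trans_le hMC
  obtain ⟨c, hc⟩ : ∃ c : ℝ, c = min (C / 48) (ε / 3000) := ⟨_, rfl⟩
  have hc0 : 0 < c := by rw [hc]; positivity
  have hcC : c ≤ C / 48 := by rw [hc]; exact min_le_left _ _
  have hcε : c ≤ ε / 3000 := by rw [hc]; exact min_le_right _ _
  refine ⟨c, hc0, fun η l hη => ?_⟩
  obtain ⟨B, H₀, hD⟩ := dens l 1 c (η * C / (96 * M)) hc0 (by positivity)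
  refine ⟨B, fun A => ?_⟩
  obtain ⟨K₁, hK₁⟩ := htwo ε (ε / 1000) (max A 3) hε (by positivity)
  have hsq : ∀ᶠ K : ℝ in atTop, 432 / C * Real.log K ^ 2 ≤ K ^ (1 / 2 : ℝ) := by
    have h1 := (isLittleO_log_rpow_rpow_atTop (2 : ℝ) (show (0 : ℝ) < 1 / 2 by norm_num)).bound
      (show (0 : ℝ) < C / 432 by positivity)
    filter_upwards [h1, eventually_ge_atTop (1 : ℝ)] with K h2 h3
    have h4 : 0 ≤ Real.log K := Real.log_nonneg h3
    rw [Real.norm_of_nonneg (by positivity), Real.norm_of_nonneg (by positivity)] at h2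
    have h5 : Real.log K ^ (2 : ℝ) = Real.log K ^ 2 := by exact_mod_cast Real.rpow_natCast (Real.log K) 2
    rw [h5] at h2
    calc 432 / C * Real.log K ^ 2 ≤ 432 / C * (C / 432 * K ^ (1 / 2 : ℝ)) :=
          mul_le_mul_of_nonneg_left h2 (by positivity)
      _ = K ^ (1 / 2 : ℝ) := by field_simp
  obtain ⟨K₂, hK₂⟩ := eventually_atTop.1 (((Real.tendsto_log_atTop.eventually_ge_atTop
    (max 1 (6000 / (C * ε)))).and hsq).and (eventually_ge_atTop ((H₀ : ℝ) + 5)))
  refine ⟨max K₁ K₂, fun K hK => ?_⟩
  obtain ⟨⟨f1, f2⟩, f3⟩ := hK₂ K ((le_max_right _ _).trans hK)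
  have hlK1 : 1 ≤ Real.log K := (le_max_left _ _).trans f1
  have hlKC : 6000 / (C * ε) ≤ Real.log K := (le_max_right _ _).trans f1
  have hK5 : 5 ≤ K := by
    have : (0 : ℝ) ≤ H₀ := Nat.cast_nonneg _
    linarith
  have hK0 : 0 < K := by linarith
  have hK1 : 1 ≤ K := by linarith
  refine ⟨(Icc 1 ⌊K⌋₊).filter (fun k =>
    ¬ Pool.Agent.Results.MP_484c84_nt.TwoPrimeFormula.Good C ε (ε / 1000) (max A 3) K k), ?_, ?_⟩
  · have h1 := hK₁ K ((le_max_left _ _).trans hK)
    unfold Pool.Agent.Results.MP_484c84_nt.TwoPrimeFormula.exceptions at h1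
    refine le_trans (by convert h1) ?_
    apply div_le_div_of_nonneg_left hK0.le (by positivity)
    exact pow_le_pow_right₀ hlK1 (le_max_left _ _)
  · intro k hk hkE N hN1 hN2
    have hgood : Pool.Agent.Results.MP_484c84_nt.TwoPrimeFormula.Good C ε (ε / 1000) (max A 3) K k := by
      by_contra hcon
      exact hkE (mem_filter.2 ⟨hk, hcon⟩)
    have hε1 : ε ≤ 1 := by
      have h1 := hN1.trans hN2
      have h2 := (Real.rpow_le_rpow_left_iff (by linarith : 1 < K)).1 h1
      linarith
    have hNK : K ≤ N := by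
      refine le_trans ?_ hN1
      calc K = K ^ (1 : ℝ) := (Real.rpow_one K).symm
        _ ≤ K ^ (1 + ε) := Real.rpow_le_rpow_of_exponent_le hK1 (by linarith)
    have hN5 : 5 ≤ N := hK5.trans hNK
    have hN0 : 0 < N := by linarith
    have hlN : 0 < Real.log N := Real.log_pos (by linarith)
    have hN3 : N ≤ K ^ (3 : ℝ) := hN2.trans (Real.rpow_le_rpow_of_exponent_le hK1 (by linarith))
    have hlN2 : Real.log N ≤ 3 * Real.log K := by
      have h2 := Real.log_le_log hN0 hN3
      rwa [Real.log_rpow hK0] at h2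
    rw [mem_Icc, Nat.le_floor_iff hK0.le] at hk
    obtain ⟨hk1, hkK⟩ := hk
    have hkr : (1 : ℝ) ≤ k := by exact_mod_cast hk1
    obtain ⟨H, hH⟩ : ∃ H : ℕ, H = ⌊N⌋₊ := ⟨_, rfl⟩
    have hHN : (H : ℝ) ≤ N := by rw [hH]; exact Nat.floor_le hN0.le
    have hHN' : N < H + 1 := by rw [hH]; exact Nat.lt_floor_add_one N
    have hH4 : (4 : ℝ) ≤ H := by
      have : 5 ≤ H := by rw [hH]; exact Nat.le_floor (by exact_mod_cast hN5)
      exact_mod_cast (by omega : 4 ≤ H)
    have hkH : k ≤ H := by rw [hH]; exact Nat.le_floor (hkK.trans hNK)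
    have hH0 : H₀ ≤ H := by rw [hH]; exact Nat.le_floor (by linarith)
    have hlH : Real.log N ≤ 2 * Real.log H := by
      have h1 : N ≤ (H : ℝ) ^ 2 := by nlinarith
      have h2 := Real.log_le_log hN0 h1
      rw [Real.log_pow] at h2
      exact_mod_cast h2
    have hlH0 : 0 < Real.log H := by linarith
    -- the window
    obtain ⟨y, hy⟩ : ∃ y : ℝ, y = K ^ (ε / 1000) := ⟨_, rfl⟩
    obtain ⟨z, hz⟩ : ∃ z : ℝ, z = K ^ (ε / 500) := ⟨_, rfl⟩
    have hyz : y ≤ z := by
      rw [hy, hz]
      exact Real.rpow_le_rpow_of_exponent_le hK1 (by linarith)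
    have hy1 : 1 ≤ y := by rw [hy]; exact Real.one_le_rpow hK1 (by positivity)
    have hz1 : 1 ≤ z := hy1.trans hyz
    have hlogy : Real.log y = ε / 1000 * Real.log K := by rw [hy, Real.log_rpow hK0]
    have hlogz : Real.log z = ε / 500 * Real.log K := by rw [hz, Real.log_rpow hK0]
    have hlogzy : Real.log (z / y) = ε / 1000 * Real.log K := by
      rw [Real.log_div (by linarith) (by linarith), hlogy, hlogz]
      ring
    have hzK : z ≤ K ^ (1 / 2 : ℝ) := by
      rw [hz]
      exact Real.rpow_le_rpow_of_exponent_le hK1 (by linarith)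
    -- the factor
    obtain ⟨φ, hφ⟩ : ∃ φ : ℝ, φ = factor k := ⟨_, rfl⟩
    have hfl : (Nat.totient k : ℝ) / k ≤ φ := by
      rw [hφ, ← totient_frac k hk1]
      exact factor_lower k
    have hfl2 : 1 / (3 * Real.log K) ≤ φ := by
      refine le_trans ?_ hfl
      rw [← totient_frac k hk1]
      refine le_trans ?_ (frac_lower k hk1)
      apply one_div_le_one_div_of_le
      · have : 0 ≤ Real.log k := Real.log_nonneg hkr
        linarith
      · have : Real.log k ≤ Real.log K := Real.log_le_log (by linarith) hkK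
        linarith
    have hφ0 : 0 < φ := lt_of_lt_of_le (by positivity) hfl2
    -- the total weight
    have htot : C / 2 * φ * N * (ε / 1000 * Real.log K) ≤ total k N y z := by
      have h1 := hgood N y z hN1 hN2 (by rw [hy]) hyz (by rw [hz])
      have h1' : |total k N y z - C * φ * N * Real.log (z / y)| ≤ N / Real.log K ^ (max A 3) := by
        rw [hφ]
        exact h1
      rw [hlogzy] at h1'
      have h2 := (abs_le.1 h1').1
      have h5 : N / Real.log K ^ (max A 3) ≤ C / 2 * φ * N * (ε / 1000 * Real.log K) := by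
        have h6 : Real.log K ^ 1 ≤ Real.log K ^ (max A 3) :=
          pow_le_pow_right₀ hlK1 (le_trans (by norm_num) (le_max_right _ _))
        have h7 : N / Real.log K ^ (max A 3) ≤ N / Real.log K ^ 1 :=
          div_le_div_of_nonneg_left hN0.le (by positivity) h6
        refine h7.trans ?_
        rw [pow_one]
        calc N / Real.log K ≤ C / 2 * (1 / (3 * Real.log K)) * N * (ε / 1000 * Real.log K) := by
              have e : C / 2 * (1 / (3 * Real.log K)) * N * (ε / 1000 * Real.log K) = N * (C * ε / 6000) := by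
                field_simp
                ring
              rw [e, div_eq_mul_one_div]
              apply mul_le_mul_of_nonneg_left _ hN0.le
              rw [div_le_div_iff₀ (by linarith) (by norm_num)]
              rw [div_le_iff₀ (by positivity)] at hlKC
              linarith
          _ ≤ C / 2 * φ * N * (ε / 1000 * Real.log K) := by gcongr
      nlinarith [h5, h2]
    -- the number of elements
    obtain ⟨Wt, hWt⟩ : ∃ Wt : Finset ℕ, Wt = (Icc 1 H).filter (fun n => weight y z (n ^ 2 + k ^ 2) ≠ 0) := ⟨_, rfl⟩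
    have hWc : C / 24 * φ * (N / Real.log N) ≤ Wt.card := by
      have h1 : total k N y z ≤ Wt.card * (2 * (Real.log z * (3 * Real.log N))) := by
        unfold total
        rw [← hH]
        have h2 : ∑ n ∈ Icc 1 H, weight y z (n ^ 2 + k ^ 2) = ∑ n ∈ Wt, weight y z (n ^ 2 + k ^ 2) := by
          rw [hWt]
          exact (sum_filter_ne_zero _).symm
        rw [h2]
        calc ∑ n ∈ Wt, weight y z (n ^ 2 + k ^ 2) ≤ ∑ _n ∈ Wt, 2 * (Real.log z * (3 * Real.log N)) := by
              apply sum_le_sum
              intro n hn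
              apply weight_le y z _ _ hz1
              rw [hWt, mem_filter, mem_Icc] at hn
              have h3 : (n : ℝ) ≤ N := le_trans (by exact_mod_cast hn.1.2) hHN
              have h4 : (k : ℝ) ≤ N := hkK.trans hNK
              have h5 : ((n ^ 2 + k ^ 2 : ℕ) : ℝ) ≤ N ^ 3 := by
                push_cast
                have h6 : (n : ℝ) ^ 2 ≤ N ^ 2 := pow_le_pow_left₀ (Nat.cast_nonneg n) h3 2
                have h7 : (k : ℝ) ^ 2 ≤ N ^ 2 := pow_le_pow_left₀ (Nat.cast_nonneg k) h4 2
                nlinarith [sq_nonneg N]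
              have h8 := Real.log_le_log (by exact_mod_cast (by positivity : 0 < n ^ 2 + k ^ 2)) h5
              rw [Real.log_pow] at h8
              exact_mod_cast h8
          _ = Wt.card * (2 * (Real.log z * (3 * Real.log N))) := by rw [sum_const, nsmul_eq_mul]
      have h9 := htot.trans h1
      rw [hlogz] at h9
      have hpos : 0 < 2 * (ε / 500 * Real.log K * (3 * Real.log N)) := by positivity
      rw [← div_le_iff₀ hpos] at h9
      refine le_trans (le_of_eq ?_) h9
      field_simp
      ring
    have hcnt : C / 48 * φ * (N / Real.log N) ≤ (SR 2 (N ^ c) k N).card := by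
      have hsub : Wt ⊆ SR 2 (N ^ c) k N ∪ Icc 1 ⌊z⌋₊ := by
        intro n hn
        rw [hWt, mem_filter] at hn
        rw [mem_union]
        by_cases hnz : (n : ℝ) ≤ z
        · right
          rw [mem_Icc]
          exact ⟨(mem_Icc.1 hn.1).1, Nat.le_floor hnz⟩
        · left
          push Not at hnz
          obtain ⟨p, q, hp, hq, hpq, hyp, hpz⟩ := weight_pos hn.2
          have hp0 : (0 : ℝ) < p := by exact_mod_cast hp.pos
          have hqz : z < (q : ℝ) := by
            have h1 : z * z < (p : ℝ) * q := by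
              have h2 : ((p * q : ℕ) : ℝ) = (n : ℝ) ^ 2 + (k : ℝ) ^ 2 := by
                rw [← hpq]
                push_cast
                ring
              push_cast at h2
              rw [h2]
              nlinarith [sq_nonneg (k : ℝ)]
            by_contra hcon
            push Not at hcon
            have h3 : (p : ℝ) * q ≤ z * z := mul_le_mul hpz hcon (Nat.cast_nonneg q) (by linarith)
            linarith
          have hpq' : p ≠ q := by
            rintro rfl
            linarith
          have hcop : Nat.Coprime p q := (Nat.coprime_primes hp hq).2 hpq'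
          have hfac : (n ^ 2 + k ^ 2).primeFactors = {p, q} := by
            rw [hpq, Nat.Coprime.primeFactors_mul hcop, hp.primeFactors, hq.primeFactors]
            rfl
          have hNy : N ^ c ≤ y := by
            rw [hy]
            calc N ^ c ≤ N ^ (ε / 3000) := Real.rpow_le_rpow_of_exponent_le (by linarith) hcε
              _ ≤ (K ^ (3 : ℝ)) ^ (ε / 3000) := Real.rpow_le_rpow hN0.le hN3 (by positivity)
              _ = K ^ (ε / 1000) := by
                  rw [← Real.rpow_mul hK0.le]
                  congr 1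
                  ring
          unfold SR
          rw [mem_filter, ← hH]
          refine ⟨hn.1, ?_, ?_, ?_⟩
          · rw [hpq, Nat.squarefree_mul hcop]
            exact ⟨hp.squarefree, hq.squarefree⟩
          · rw [hfac, card_pair hpq']
          · intro u hu
            rw [hfac, mem_insert, mem_singleton] at hu
            rcases hu with rfl | rfl
            · linarith
            · linarith
      have h1 : (Wt.card : ℝ) ≤ (SR 2 (N ^ c) k N).card + z := by
        have h2 := (card_le_card hsub).trans (card_union_le _ _)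
        rw [Nat.card_Icc, Nat.add_sub_cancel] at h2
        have h3 : (Wt.card : ℝ) ≤ (SR 2 (N ^ c) k N).card + (⌊z⌋₊ : ℝ) := by exact_mod_cast h2
        have h4 : (⌊z⌋₊ : ℝ) ≤ z := Nat.floor_le (by linarith)
        linarith
      have h2 : z ≤ C / 48 * φ * (N / Real.log N) := by
        have h8 : C / 48 * (1 / (3 * Real.log K)) * (N / (3 * Real.log K)) ≤ C / 48 * φ * (N / Real.log N) := by
          have h9 : N / (3 * Real.log K) ≤ N / Real.log N := div_le_div_of_nonneg_left hN0.le hlN hlN2
          apply mul_le_mul _ h9 (by positivity) (by positivity)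
          exact mul_le_mul_of_nonneg_left hfl2 (by positivity)
        refine le_trans ?_ h8
        refine hzK.trans ?_
        have h10 : K ^ (1 / 2 : ℝ) * K ^ (1 / 2 : ℝ) = K := by
          rw [← Real.rpow_add hK0]
          norm_num
        have h11 : K ^ (1 / 2 : ℝ) * (432 / C * Real.log K ^ 2) ≤ N := by
          calc K ^ (1 / 2 : ℝ) * (432 / C * Real.log K ^ 2) ≤ K ^ (1 / 2 : ℝ) * K ^ (1 / 2 : ℝ) :=
                mul_le_mul_of_nonneg_left f2 (by positivity)
            _ = K := h10
            _ ≤ N := hNK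
        have e : C / 48 * (1 / (3 * Real.log K)) * (N / (3 * Real.log K)) = N / (432 / C * Real.log K ^ 2) := by
          field_simp
          ring
        rw [e, le_div_iff₀ (by positivity)]
        exact h11
      have h3 : C / 24 * φ * (N / Real.log N) = 2 * (C / 48 * φ * (N / Real.log N)) := by ring
      linarith
    refine ⟨le_trans ?_ hcnt, ?_⟩
    · apply mul_le_mul_of_nonneg_right _ (by positivity)
      exact mul_le_mul hcC hfl (by positivity) (by positivity)
    · intro T hT hTc
      have hV : V (Gq k) 1 H ≤ M * φ / Real.log H := by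
        refine (V_le k H hk1 hkH (by exact_mod_cast (by linarith : (2 : ℝ) ≤ H))).trans ?_
        rw [← hφ]
        apply div_le_div_of_nonneg_right _ hlH0.le
        exact mul_le_mul_of_nonneg_right (hM' H) hφ0.le
      have hHV : H * V (Gq k) 1 H ≤ 2 * M * φ * (N / Real.log N) := by
        have h1 : (H : ℝ) * V (Gq k) 1 H ≤ N * (M * φ / Real.log H) := by
          apply mul_le_mul hHN hV _ hN0.le
          exact (Pool.Agent.K3h89.SZ.V_posP (sysG k 2 le_rfl) 1 H).le
        refine h1.trans ?_
        have h2 : 1 / Real.log H ≤ 2 / Real.log N := by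
          rw [div_le_div_iff₀ hlH0 hlN]
          linarith
        calc N * (M * φ / Real.log H) = N * (M * φ) * (1 / Real.log H) := by ring
          _ ≤ N * (M * φ) * (2 / Real.log N) := mul_le_mul_of_nonneg_left h2 (by positivity)
          _ = 2 * M * φ * (N / Real.log N) := by ring
      obtain ⟨a, d, hd1, hd2, hAP⟩ := hD k 0 H T hH0 hk1 (by rw [pow_one]; exact hkH) (Nat.zero_le _)
        (by
          intro n hn
          have h4 := hT hn
          unfold SR at h4
          rw [mem_filter, mem_Icc, ← hH] at h4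
          rw [mem_Ioc, zero_add]
          exact ⟨by omega, h4.1.2⟩)
        (by
          intro n hn p hp hpH hpd
          have h4 := hT hn
          unfold SR at h4
          rw [mem_filter] at h4
          have h5 : p ∈ (n ^ 2 + k ^ 2).primeFactors :=
            Nat.mem_primeFactors.2 ⟨hp, hpd, by positivity⟩
          have h6 := h4.2.2.2 p h5
          have h7 : (H : ℝ) ^ c ≤ N ^ c := Real.rpow_le_rpow (Nat.cast_nonneg H) hHN hc0.le
          linarith)
        (by
          calc η * C / (96 * M) * (H * V (Gq k) 1 H) ≤ η * C / (96 * M) * (2 * M * φ * (N / Real.log N)) :=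
                mul_le_mul_of_nonneg_left hHV (by positivity)
            _ = η * (C / 48 * φ * (N / Real.log N)) := by
                field_simp
                ring
            _ ≤ η * (SR 2 (N ^ c) k N).card := mul_le_mul_of_nonneg_left hcnt hη.le
            _ ≤ T.card := hTc)
      refine ⟨a, d, hd1, hd2.trans ?_, hAP⟩
      exact pow_le_pow_left₀ hlH0.le (Real.log_le_log (by linarith) hHN) B

end Pool.Agent.J6H29.GT
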