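import Pool.Agent.K3h89.SX.Stm
import Pool.Agent.Y677.RSZ.Eng4
import Pool.Agent.K3h89.SX.BADX
import Pool.Agent.K3h89.SZ.LAR
import Pool.Agent.K3h89.SX.MOM

/-!
# The functions `x ↦ x² + k²` as weak systems, uniformly in `k`
-/

set_option autoImplicit false

open Finset Filter Topology

namespace Pool.Agent.J6H29.GT

open Pool.Agent.K3h89.SZ (SysP CF lar_cnt lar_union)
open Pool.Agent.Y677.RSZ (rt V ev_log)
open Pool.Agent.TH423.SH (PS)
open Pool.Agent.K3h89.SX (S_MOM big_primes sum_un)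

/-- the function `x² + k²` -/
def Gq (k : ℕ) (x : ℤ) : ℤ := x ^ 2 + (k : ℤ) ^ 2

lemma rt_le (k p : ℕ) (hp : p.Prime) : rt (Gq k) p ≤ 2 := by
  unfold rt
  rcases ((range p).filter (fun r : ℕ => (p : ℤ) ∣ Gq k r)).eq_empty_or_nonempty with h | ⟨r, hr⟩
  · rw [h, card_empty]
    omega
  · have hsub : (range p).filter (fun r : ℕ => (p : ℤ) ∣ Gq k r) ⊆ {r, (p - r) % p} := by
      intro s hs
      rw [mem_filter, mem_range] at hr hs
      rw [mem_insert, mem_singleton]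
      have h1 : (p : ℤ) ∣ ((s : ℤ) - r) * ((s : ℤ) + r) := by
        have := dvd_sub hs.2 hr.2
        unfold Gq at this
        have e : (s : ℤ) ^ 2 + (k : ℤ) ^ 2 - ((r : ℤ) ^ 2 + (k : ℤ) ^ 2) = ((s : ℤ) - r) * ((s : ℤ) + r) := by ring
        rwa [e] at this
      rcases (Nat.prime_iff_prime_int.1 hp).dvd_or_dvd h1 with h2 | h2
      · left
        have h3 : s ≡ r [MOD p] := ((Nat.modEq_iff_dvd).2 h2).symm
        have h4 : s % p = r % p := h3
        rwa [Nat.mod_eq_of_lt hs.1, Nat.mod_eq_of_lt hr.1] at h4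
      · right
        have h3 : p ∣ s + r := by exact_mod_cast h2
        obtain ⟨c, hc⟩ := h3
        rcases Nat.eq_zero_or_pos r with h0 | h0
        · rw [h0, Nat.sub_zero, Nat.mod_self]
          rw [h0, Nat.add_zero] at hc
          have h5 : p ∣ s := ⟨c, hc⟩
          exact Nat.eq_zero_of_dvd_of_lt h5 hs.1
        · have hpr : p - r < p := by omega
          rw [Nat.mod_eq_of_lt hpr]
          have hc1 : c = 1 := by
            have h6 : 0 < c := by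
              rcases Nat.eq_zero_or_pos c with h | h
              · rw [h, mul_zero] at hc
                omega
              · exact h
            have h7 : p * c < p * 2 := by omega
            have h8 := Nat.lt_of_mul_lt_mul_left h7
            omega
          rw [hc1, mul_one] at hc
          omega
    exact (card_le_card hsub).trans card_le_two

lemma rt_lt (k p : ℕ) (hp : p.Prime) : rt (Gq k) p < p := by
  rcases hp.eq_two_or_odd with h2 | h2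
  · subst h2
    unfold rt
    have hex : ∃ r ∈ range 2, ¬ (2 : ℤ) ∣ Gq k (r : ℤ) := by
      rcases Nat.even_or_odd k with ⟨c, hc⟩ | ⟨c, hc⟩
      · refine ⟨1, by simp, ?_⟩
        unfold Gq
        rw [hc]
        simp only [Nat.cast_add, Nat.cast_mul, Nat.cast_ofNat, Nat.cast_one, Nat.cast_zero]
        intro h
        have e : (1 : ℤ) + ((c : ℤ) + c) ^ 2 = 2 * (2 * c ^ 2) + 1 := by ring
        rw [one_pow, e] at h
        omega
      · refine ⟨0, by simp, ?_⟩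
        unfold Gq
        rw [hc]
        simp only [Nat.cast_add, Nat.cast_mul, Nat.cast_ofNat, Nat.cast_one, Nat.cast_zero]
        intro h
        have e : (0 : ℤ) ^ 2 + (2 * (c : ℤ) + 1) ^ 2 = 2 * (2 * c ^ 2 + 2 * c) + 1 := by ring
        rw [e] at h
        omega
    obtain ⟨r, hr1, hr2⟩ := hex
    calc ((range 2).filter (fun r : ℕ => ((2 : ℕ) : ℤ) ∣ Gq k r)).card < (range 2).card := by
          apply card_lt_card
          rw [Finset.ssubset_iff_subset_ne]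
          refine ⟨filter_subset _ _, fun h => hr2 ?_⟩
          have : r ∈ (range 2).filter (fun r : ℕ => ((2 : ℕ) : ℤ) ∣ Gq k r) := by rw [h]; exact hr1
          have h3 := (mem_filter.1 this).2
          exact_mod_cast h3
      _ = 2 := card_range 2
  · have h3 := rt_le k p hp
    have := hp.two_le
    have h4 : p ≠ 2 := by rintro rfl; omega
    omega

lemma sysG (k g : ℕ) (hg : 2 ≤ g) : SysP g (Gq k) := by
  refine ⟨fun p hp n => ?_, fun p hp => ⟨(rt_le k p hp).trans hg, rt_lt k p hp⟩⟩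
  unfold Gq
  have e : (n + (p : ℤ)) ^ 2 + (k : ℤ) ^ 2 = (n ^ 2 + (k : ℤ) ^ 2) + (p : ℤ) * (2 * n + p) := by ring
  rw [e]
  exact (dvd_add_left (Dvd.intro _ rfl))

lemma cfG {k h p : ℕ} (hp : p.Prime) (hc : CF (Gq k) h p) :
    p ∣ h ∨ p ∣ h ^ 2 + 4 * k ^ 2 := by
  obtain ⟨x, h1, h2⟩ := hc
  unfold Gq at h1 h2
  have h3 : (p : ℤ) ∣ (h : ℤ) * (2 * x + h) := by
    have := dvd_sub h2 h1
    have e : (x + (h : ℤ)) ^ 2 + (k : ℤ) ^ 2 - (x ^ 2 + (k : ℤ) ^ 2) = (h : ℤ) * (2 * x + h) := by ring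
    rwa [e] at this
  rcases (Nat.prime_iff_prime_int.1 hp).dvd_or_dvd h3 with h4 | h4
  · left
    exact_mod_cast h4
  · right
    have h5 : (p : ℤ) ∣ ((h ^ 2 + 4 * k ^ 2 : ℕ) : ℤ) := by
      have h6 := dvd_add (h1.mul_left 4) (h4.mul_right ((h : ℤ) - 2 * x))
      have e : 4 * (x ^ 2 + (k : ℤ) ^ 2) + (2 * x + (h : ℤ)) * ((h : ℤ) - 2 * x) = ((h ^ 2 + 4 * k ^ 2 : ℕ) : ℤ) := by
        push_cast
        ring
      rwa [e] at h6
    exact_mod_cast h5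

/-- a common residue for the roots -/
lemma crt (z k : ℕ) : ∃ a : ℤ, ∀ p : ℕ, p.Prime → p ≤ z → ∀ y : ℤ,
    (p : ℤ) ∣ y ^ 2 + 4 * (k : ℤ) ^ 2 → (p : ℤ) ∣ a + y ∨ (p : ℤ) ∣ -a + y := by
  classical
  have hr : ∀ p : ℕ, ∃ r : ℕ, p.Prime → ∀ y : ℤ, (p : ℤ) ∣ y ^ 2 + 4 * (k : ℤ) ^ 2 →
      (p : ℤ) ∣ r + y ∨ (p : ℤ) ∣ -(r : ℤ) + y := by
    intro p
    by_cases hp : p.Prime
    · by_cases hex : ∃ y : ℤ, (p : ℤ) ∣ y ^ 2 + 4 * (k : ℤ) ^ 2
      · obtain ⟨y0, hy0⟩ := hex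
        refine ⟨(y0 % p).toNat, fun _ y hy => ?_⟩
        have hp0 : (p : ℤ) ≠ 0 := by exact_mod_cast hp.ne_zero
        have e1 : (((y0 % p).toNat : ℕ) : ℤ) = y0 % p := Int.toNat_of_nonneg (Int.emod_nonneg _ hp0)
        rw [e1]
        have h1 : (p : ℤ) ∣ y0 - y0 % p := Int.dvd_self_sub_emod
        have h2 : (p : ℤ) ∣ (y0 + y) * (-y0 + y) := by
          have := dvd_sub hy hy0
          have e : y ^ 2 + 4 * (k : ℤ) ^ 2 - (y0 ^ 2 + 4 * (k : ℤ) ^ 2) = (y0 + y) * (-y0 + y) := by ring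
          rwa [e] at this
        rcases (Nat.prime_iff_prime_int.1 hp).dvd_or_dvd h2 with h3 | h3
        · left
          have := dvd_sub h3 h1
          have e : y0 + y - (y0 - y0 % p) = y0 % p + y := by ring
          rwa [e] at this
        · right
          have := dvd_add h3 h1
          have e : -y0 + y + (y0 - y0 % p) = -(y0 % p) + y := by ring
          rwa [e] at this
      · exact ⟨0, fun _ y hy => absurd ⟨y, hy⟩ hex⟩
    · exact ⟨0, fun h => absurd h hp⟩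
  choose r hr using hr
  obtain ⟨a, ha⟩ := Nat.chineseRemainderOfFinset r id ((Icc 1 z).filter Nat.Prime)
    (fun p hp => (mem_filter.1 hp).2.ne_zero) (by
      intro p hp q hq hpq
      exact (Nat.coprime_primes (mem_filter.1 hp).2 (mem_filter.1 hq).2).2 hpq)
  refine ⟨a, fun p hp hpz y hy => ?_⟩
  have h1 := ha p (mem_filter.2 ⟨mem_Icc.2 ⟨hp.one_lt.le, hpz⟩, hp⟩)
  have h2 : (p : ℤ) ∣ (r p : ℤ) - a := (Nat.modEq_iff_dvd).1 h1
  rcases hr p hp y hy with h3 | h3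
  · left
    have := dvd_sub h3 h2
    have e : (r p : ℤ) + y - ((r p : ℤ) - a) = a + y := by ring
    rwa [e] at this
  · right
    have := dvd_add h3 h2
    have e : -(r p : ℤ) + y + ((r p : ℤ) - a) = -(a : ℤ) + y := by ring
    rwa [e] at this

open Classical in
/-- for most `j` the sum of the reciprocals of the common prime factors is small -/
theorem badG (C B : ℕ) (ε : ℝ) (hε : 0 < ε) : ∃ H₀ : ℕ, ∀ H : ℕ, H₀ ≤ H →
    ∀ k : ℕ, 1 ≤ k → k ≤ H ^ C →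
    ∀ W N : ℕ, 1 ≤ W → (W : ℝ) ≤ Real.log H ^ B → Real.log H ^ 8 ≤ N → (N : ℝ) ≤ Real.log H ^ B →
    (∀ p : ℕ, p.Prime → (p : ℝ) ≤ Real.log N → p ∣ W) →
    (((Icc 1 N).filter (fun j : ℕ =>
      ε < ∑ p ∈ (PS W H).filter (fun p : ℕ => CF (Gq k) (W * j) p), (1 : ℝ) / p)).card : ℝ) ≤
      (N : ℝ) ^ (4 / 5 : ℝ) := by
  obtain ⟨N₀, hMOM⟩ := Pool.Agent.K3h89.SX.mom (ε / 4) (by positivity)
  have hlog : Filter.Tendsto (fun H : ℕ => Real.log H) Filter.atTop Filter.atTop :=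
    Real.tendsto_log_atTop.comp tendsto_natCast_atTop_atTop
  obtain ⟨H₀, hH₀⟩ := Filter.eventually_atTop.1 (((((hlog.eventually_ge_atTop
    (Real.exp (Real.exp (4 / ε)))).and (hlog.eventually_ge_atTop (N₀ : ℝ))).and
    ((hlog.eventually_ge_atTop ((2 : ℝ) ^ 20)).and (hlog.eventually_ge_atTop ((16 * C + 24) / ε)))).and
    (ev_log (2 * B) 2 1 one_pos)).and (Filter.eventually_ge_atTop (5 : ℕ)))
  refine ⟨H₀, ?_⟩
  intro H hH k hk1 hkH W N hW hWB hlN hNB hpW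
  obtain ⟨⟨⟨⟨e1, e2⟩, e3, e4⟩, e5⟩, e6⟩ := hH₀ H hH
  obtain ⟨l, hl⟩ : ∃ l : ℝ, l = Real.log H := ⟨_, rfl⟩
  rw [← hl] at e1 e2 e3 e4 e5 hWB hlN hNB
  have hl20 : (1048576 : ℝ) ≤ l := by norm_num at e3; linarith
  have hl0 : 0 < l := by linarith
  have hl1 : 1 ≤ l := by linarith
  have hN1 : l ≤ N := le_trans (le_self_pow₀ hl1 (by norm_num)) hlN
  have hN0 : (0 : ℝ) < N := by linarith
  have hlogN : Real.exp (4 / ε) ≤ Real.log N := by
    have h3 := Real.log_le_log (Real.exp_pos _) (e1.trans hN1)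
    rwa [Real.log_exp] at h3
  have hlogN1 : 1 < Real.log N := by
    refine lt_of_lt_of_le ?_ hlogN
    rw [Real.one_lt_exp_iff]
    positivity
  have hllN : 4 / ε ≤ Real.log (Real.log N) := by
    have h3 := Real.log_le_log (Real.exp_pos _) hlogN
    rwa [Real.log_exp] at h3
  have hNN₀ : N₀ ≤ N := by
    have : (N₀ : ℝ) ≤ N := e2.trans hN1
    exact_mod_cast this
  obtain ⟨z, hz⟩ : ∃ z : ℕ, z = Nat.sqrt (Nat.sqrt N) := ⟨_, rfl⟩
  have hz4 : z ^ 4 ≤ N := by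
    have h3 : z * z ≤ Nat.sqrt N := by rw [hz]; exact Nat.sqrt_le _
    have h4 : Nat.sqrt N * Nat.sqrt N ≤ N := Nat.sqrt_le _
    calc z ^ 4 = (z * z) * (z * z) := by ring
      _ ≤ Nat.sqrt N * Nat.sqrt N := Nat.mul_le_mul h3 h3
      _ ≤ N := h4
  have hz4' : N < (z + 1) ^ 4 := by
    have h3 : Nat.sqrt N < (z + 1) * (z + 1) := by rw [hz]; exact Nat.lt_succ_sqrt _
    have h4 : N < (Nat.sqrt N + 1) * (Nat.sqrt N + 1) := Nat.lt_succ_sqrt _
    calc N < (Nat.sqrt N + 1) * (Nat.sqrt N + 1) := h4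
      _ ≤ ((z + 1) * (z + 1)) * ((z + 1) * (z + 1)) := Nat.mul_le_mul h3 h3
      _ = (z + 1) ^ 4 := by ring
  have hzl : l ^ 2 / 2 ≤ z := by
    have h3 : l ^ 8 < ((z : ℝ) + 1) ^ 4 := lt_of_le_of_lt hlN (by exact_mod_cast hz4')
    have h4 : l ^ 2 < (z : ℝ) + 1 := by
      by_contra hcon
      push Not at hcon
      have h5 : ((z : ℝ) + 1) ^ 4 ≤ (l ^ 2) ^ 4 := pow_le_pow_left₀ (by positivity) hcon 4
      have h6 : (l ^ 2) ^ 4 = l ^ 8 := by ring
      linarith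
    nlinarith
  have hz3 : (3 : ℝ) ≤ z := by nlinarith
  have hz0 : (0 : ℝ) < z := by linarith
  have hlogz : 1 ≤ Real.log z := by
    rw [Real.le_log_iff_exp_le hz0]
    linarith [Real.exp_one_lt_d9]
  have hH0 : (0 : ℝ) < H := by exact_mod_cast (show 0 < H by omega)
  rw [Real.rpow_one] at e5
  -- the products
  have hWj : ∀ j : ℕ, j ≤ N → 2 * (W * j) ≤ H := by
    intro j hj
    have h3 : (j : ℝ) ≤ l ^ B := le_trans (by exact_mod_cast hj) hNB
    have h4 : (W : ℝ) * j ≤ l ^ (2 * B) := by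
      calc (W : ℝ) * j ≤ l ^ B * l ^ B := by gcongr
        _ = l ^ (2 * B) := by rw [← pow_add, two_mul]
    have h5 : (2 : ℝ) * (W * j) ≤ H := by linarith
    exact_mod_cast h5
  have hmb : ∀ j : ℕ, j ≤ N → (W * j) ^ 2 + 4 * k ^ 2 ≤ H ^ (2 * C + 3) := by
    intro j hj
    have h3 := hWj j hj
    have h4 : W * j ≤ H := by omega
    have h5 : (W * j) ^ 2 ≤ H ^ 2 := Nat.pow_le_pow_left h4 2
    have h6 : k ^ 2 ≤ (H ^ C) ^ 2 := Nat.pow_le_pow_left hkH 2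
    have h7 : 1 ≤ (H ^ C) ^ 2 := Nat.one_le_pow _ _ (Nat.pos_of_ne_zero (by positivity))
    have e : H ^ (2 * C + 3) = H * (H ^ 2 * (H ^ C) ^ 2) := by
      rw [← pow_mul, mul_comm C 2]
      ring
    rw [e]
    have h8 : H ^ 2 ≤ H ^ 2 * (H ^ C) ^ 2 := Nat.le_mul_of_pos_right _ h7
    have h9 : (H ^ C) ^ 2 ≤ H ^ 2 * (H ^ C) ^ 2 := Nat.le_mul_of_pos_left _ (by positivity)
    calc (W * j) ^ 2 + 4 * k ^ 2 ≤ 5 * (H ^ 2 * (H ^ C) ^ 2) := by omega
      _ ≤ H * (H ^ 2 * (H ^ C) ^ 2) := Nat.mul_le_mul_right _ e6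
  have hlogm : ∀ m : ℕ, m ≤ H ^ (2 * C + 3) → Real.log m ≤ (2 * C + 3) * l := by
    intro m hm
    rcases Nat.eq_zero_or_pos m with rfl | hm0
    · simp
      positivity
    · have h3 : Real.log m ≤ Real.log ((H : ℝ) ^ (2 * C + 3)) :=
        Real.log_le_log (by exact_mod_cast hm0) (by exact_mod_cast hm)
      rw [Real.log_pow, ← hl] at h3
      exact_mod_cast h3
  have hbig : (2 * C + 3) * l / (z * Real.log z) ≤ ε / 4 := by
    have h3 : l ^ 2 / 2 ≤ z * Real.log z := by nlinarith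
    have h4 : 16 * (C : ℝ) + 24 ≤ ε * l := by
      rw [div_le_iff₀ hε] at e4
      linarith
    rw [div_le_iff₀ (by positivity)]
    calc (2 * (C : ℝ) + 3) * l ≤ ε / 4 * (l ^ 2 / 2) := by nlinarith
      _ ≤ ε / 4 * (z * Real.log z) := by gcongr
  obtain ⟨a, ha⟩ := crt z k
  set bad1 := (Icc 1 N).filter (fun j : ℕ => ε / 4 < ∑ p ∈ (Icc 1 z).filter (fun p : ℕ =>
    p.Prime ∧ Real.log N < p ∧ ¬ p ∣ W ∧ (p : ℤ) ∣ a + W * j), (1 : ℝ) / p) with hb1
  set bad2 := (Icc 1 N).filter (fun j : ℕ => ε / 4 < ∑ p ∈ (Icc 1 z).filter (fun p : ℕ =>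
    p.Prime ∧ Real.log N < p ∧ ¬ p ∣ W ∧ (p : ℤ) ∣ -a + W * j), (1 : ℝ) / p) with hb2
  have hc1 : (bad1.card : ℝ) ≤ (N : ℝ) ^ (3 / 4 : ℝ) := by
    rw [hb1]
    convert hMOM a W N z hNN₀ hz4
  have hc2 : (bad2.card : ℝ) ≤ (N : ℝ) ^ (3 / 4 : ℝ) := by
    rw [hb2]
    convert hMOM (-a) W N z hNN₀ hz4
  have hsub : (Icc 1 N).filter (fun j : ℕ =>
      ε < ∑ p ∈ (PS W H).filter (fun p : ℕ => CF (Gq k) (W * j) p), (1 : ℝ) / p) ⊆ bad1 ∪ bad2 := by
    intro j hj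
    rw [mem_filter] at hj
    obtain ⟨hjN, hjε⟩ := hj
    by_contra hcon
    rw [mem_union, not_or, hb1, hb2, mem_filter, mem_filter, not_and, not_and] at hcon
    have g1 := not_lt.1 (hcon.1 hjN)
    have g2 := not_lt.1 (hcon.2 hjN)
    rw [mem_Icc] at hjN
    set S0 := (PS W H).filter (fun p : ℕ => CF (Gq k) (W * j) p) with hS0
    have hS0p : ∀ p ∈ S0, p.Prime ∧ ¬ p ∣ W ∧ Real.log N < p := by
      intro p hp
      rw [hS0, mem_filter] at hp
      have hp1 := hp.1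
      unfold PS at hp1
      rw [mem_filter] at hp1
      refine ⟨hp1.2.1, hp1.2.2, ?_⟩
      by_contra h3
      push Not at h3
      exact hp1.2.2 (hpW p hp1.2.1 h3)
    set T1 := S0.filter (fun p => p ∣ j) with hT1
    set T2 := (Icc 1 z).filter (fun p : ℕ =>
      p.Prime ∧ Real.log N < p ∧ ¬ p ∣ W ∧ (p : ℤ) ∣ a + W * j) with hT2
    set T3 := (Icc 1 z).filter (fun p : ℕ =>
      p.Prime ∧ Real.log N < p ∧ ¬ p ∣ W ∧ (p : ℤ) ∣ -a + W * j) with hT3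
    set T4 := S0.filter (fun p => z < p ∧ p ∣ (W * j) ^ 2 + 4 * k ^ 2) with hT4
    have k1 : ∑ p ∈ T1, (1 : ℝ) / p ≤ ε / 4 := by
      have h3 := big_primes T1 j (by omega) (Real.log N) (Real.log N) hlogN1 (by
        intro p hp
        rw [hT1, mem_filter] at hp
        exact ⟨(hS0p p hp.1).1, hp.2, (hS0p p hp.1).2.2.le⟩)
        (Real.log_le_log (by exact_mod_cast hjN.1) (by exact_mod_cast hjN.2))
      refine h3.trans ?_
      have h4 : 0 < Real.log N := by linarith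
      have h5 : 0 < Real.log (Real.log N) := lt_of_lt_of_le (by positivity) hllN
      rw [div_le_iff₀ (by positivity)]
      rw [div_le_iff₀ hε] at hllN
      nlinarith
    have k4 : ∑ p ∈ T4, (1 : ℝ) / p ≤ ε / 4 := by
      refine (big_primes T4 ((W * j) ^ 2 + 4 * k ^ 2) (by positivity) z ((2 * C + 3) * l) (by linarith) ?_
        (hlogm _ (hmb j hjN.2))).trans hbig
      intro p hp
      rw [hT4, mem_filter] at hp
      exact ⟨(hS0p p hp.1).1, hp.2.2, by exact_mod_cast hp.2.1.le⟩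
    have hcov : S0 ⊆ ((T1 ∪ T2) ∪ T3) ∪ T4 := by
      intro p hp
      obtain ⟨q1, q2, q3⟩ := hS0p p hp
      have hCF : CF (Gq k) (W * j) p := by
        have hp' := hp
        rw [hS0, mem_filter] at hp'
        exact hp'.2
      rcases cfG q1 hCF with hd | hd
      · have hj' : p ∣ j := (q1.dvd_mul.1 hd).resolve_left q2
        have : p ∈ T1 := by rw [hT1, mem_filter]; exact ⟨hp, hj'⟩
        simp only [mem_union]
        tauto
      · by_cases hpz : p ≤ z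
        · have h3 : (p : ℤ) ∣ ((W : ℤ) * j) ^ 2 + 4 * (k : ℤ) ^ 2 := by exact_mod_cast hd
          rcases ha p q1 hpz _ h3 with h4 | h4
          · have : p ∈ T2 := by
              rw [hT2, mem_filter, mem_Icc]
              exact ⟨⟨q1.one_lt.le, hpz⟩, q1, q3, q2, h4⟩
            simp only [mem_union]
            tauto
          · have : p ∈ T3 := by
              rw [hT3, mem_filter, mem_Icc]
              exact ⟨⟨q1.one_lt.le, hpz⟩, q1, q3, q2, h4⟩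
            simp only [mem_union]
            tauto
        · have : p ∈ T4 := by
            rw [hT4, mem_filter]
            exact ⟨hp, by omega, hd⟩
          simp only [mem_union]
          tauto
    have h6 : ∑ p ∈ S0, (1 : ℝ) / p ≤ ∑ p ∈ ((T1 ∪ T2) ∪ T3) ∪ T4, (1 : ℝ) / p :=
      sum_le_sum_of_subset_of_nonneg hcov fun _ _ _ => by positivity
    have h8 := sum_un ((T1 ∪ T2) ∪ T3) T4
    have h9 := sum_un (T1 ∪ T2) T3
    have h10 := sum_un T1 T2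
    linarith
  have h3 : (((Icc 1 N).filter (fun j : ℕ =>
      ε < ∑ p ∈ (PS W H).filter (fun p : ℕ => CF (Gq k) (W * j) p), (1 : ℝ) / p)).card : ℝ) ≤
      bad1.card + bad2.card := by
    exact_mod_cast (card_le_card hsub).trans (card_union_le _ _)
  have h4 : (2 : ℝ) * (N : ℝ) ^ (3 / 4 : ℝ) ≤ (N : ℝ) ^ (4 / 5 : ℝ) := by
    have h5 : (N : ℝ) ^ (4 / 5 : ℝ) = (N : ℝ) ^ (1 / 20 : ℝ) * (N : ℝ) ^ (3 / 4 : ℝ) := by
      rw [← Real.rpow_add hN0]
      norm_num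
    have h6 : (2 : ℝ) ≤ (N : ℝ) ^ (1 / 20 : ℝ) := by
      have h7 : ((2 : ℝ) ^ 20) ^ (1 / 20 : ℝ) ≤ (N : ℝ) ^ (1 / 20 : ℝ) :=
        Real.rpow_le_rpow (by positivity) (e3.trans hN1) (by norm_num)
      rw [← Real.rpow_natCast, ← Real.rpow_mul (by norm_num)] at h7
      norm_num at h7
      linarith
    rw [h5]
    gcongr
  refine le_trans ?_ (h3.trans (le_trans ?_ h4))
  · exact le_of_eq (by congr!)
  · linarith

/-- the common prime factors of large size -/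
def larN (k h : ℕ) : ℤ := (h : ℤ) * ((h : ℤ) ^ 2 + 4 * (k : ℤ) ^ 2)

lemma larN_bd {C k h H : ℕ} (h1 : 1 ≤ h) (hA : (h : ℝ) < H) (hk : k ≤ H ^ C) (hH : 20 ≤ H) :
    larN k h ≠ 0 ∧ |((larN k h : ℤ) : ℝ)| ≤ (H : ℝ) ^ (2 * C + 4) := by
  have h1' : (1 : ℝ) ≤ h := by exact_mod_cast h1
  have hH1 : (20 : ℝ) ≤ H := by exact_mod_cast hH
  have hk' : (k : ℝ) ≤ (H : ℝ) ^ C := by exact_mod_cast hk
  have hcast : ((larN k h : ℤ) : ℝ) = h * ((h : ℝ) ^ 2 + 4 * (k : ℝ) ^ 2) := by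
    simp only [larN]
    push_cast
    ring
  have hpos : 0 < h * ((h : ℝ) ^ 2 + 4 * (k : ℝ) ^ 2) := by positivity
  constructor
  · intro h0
    rw [h0] at hcast
    rw [← hcast] at hpos
    simp at hpos
  · rw [hcast, abs_of_pos hpos]
    have hHC : (1 : ℝ) ≤ (H : ℝ) ^ C := one_le_pow₀ (by linarith)
    have c1 : (h : ℝ) ^ 2 ≤ (H : ℝ) ^ 2 := pow_le_pow_left₀ (by linarith) hA.le 2
    have c2 : (k : ℝ) ^ 2 ≤ ((H : ℝ) ^ C) ^ 2 := pow_le_pow_left₀ (Nat.cast_nonneg k) hk' 2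
    have c3 : (1 : ℝ) ≤ ((H : ℝ) ^ C) ^ 2 := one_le_pow₀ hHC
    have c4 : (1 : ℝ) ≤ (H : ℝ) ^ 2 := one_le_pow₀ (by linarith)
    have c5 : (h : ℝ) ^ 2 + 4 * (k : ℝ) ^ 2 ≤ 5 * ((H : ℝ) ^ 2 * ((H : ℝ) ^ C) ^ 2) := by
      nlinarith [mul_nonneg (sub_nonneg.2 c3) (by linarith : (0 : ℝ) ≤ (H : ℝ) ^ 2),
        mul_nonneg (sub_nonneg.2 c4) (by linarith : (0 : ℝ) ≤ ((H : ℝ) ^ C) ^ 2)]
    have e : (H : ℝ) ^ (2 * C + 4) = H * (H * ((H : ℝ) ^ 2 * ((H : ℝ) ^ C) ^ 2)) := by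
      rw [← pow_mul, mul_comm C 2]
      ring
    rw [e]
    apply mul_le_mul hA.le _ (by positivity) (by linarith)
    refine c5.trans ?_
    exact mul_le_mul_of_nonneg_right (by linarith) (by positivity)

theorem larG (C B : ℕ) (η : ℝ) (hη : 0 < η) : ∃ H₀ : ℕ, ∀ H : ℕ, H₀ ≤ H →
    ∀ k : ℕ, k ≤ H ^ C → ∀ T0 : Finset ℕ, (∀ p ∈ T0, p ∈ Icc 1 H ∧ p.Prime ∧ Real.exp (√(Real.log H)) ≤ p ∧
      ∃ h : ℕ, 1 ≤ h ∧ (h : ℝ) ≤ Real.log H ^ B ∧ CF (Gq k) h p) →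
    ∑ p ∈ T0, (1 : ℝ) / p ≤ η := by
  classical
  have hcast : Tendsto (fun H : ℕ => (H : ℝ)) atTop atTop := tendsto_natCast_atTop_atTop
  have hlog : Tendsto (fun H : ℕ => Real.log (H : ℝ)) atTop atTop :=
    Real.tendsto_log_atTop.comp hcast
  have hsq : Tendsto (fun H : ℕ => √(Real.log (H : ℝ))) atTop atTop :=
    Real.tendsto_sqrt_atTop.comp hlog
  have e1 : ∀ᶠ H : ℕ in atTop, 2 * Real.log H ^ B < H := by
    have h1 : ∀ᶠ x : ℝ in atTop, ‖Real.log x ^ B‖ ≤ (1 / 4 : ℝ) * ‖id x‖ :=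
      (Real.isLittleO_pow_log_id_atTop (n := B)).def (by positivity)
    filter_upwards [hcast.eventually h1, hcast.eventually (eventually_gt_atTop 0)] with H h2 h3
    have h3' : (0 : ℝ) < H := h3
    rw [id, Real.norm_of_nonneg h3'.le] at h2
    have h4 : Real.log (H : ℝ) ^ B ≤ 1 / 4 * H := le_trans (Real.le_norm_self _) h2
    linarith
  have e2 : ∀ᶠ H : ℕ in atTop,
      √(Real.log (H : ℝ)) ^ (2 * B + 1) * Real.exp (-√(Real.log (H : ℝ))) < η / (2 * C + 4) := by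
    have h1 := (Real.tendsto_pow_mul_exp_neg_atTop_nhds_zero (2 * B + 1)).comp hsq
    exact h1.eventually (gt_mem_nhds (by positivity))
  have e3 : ∀ᶠ H : ℕ in atTop, (4 : ℝ) ≤ Real.log (H : ℝ) := hlog.eventually_ge_atTop 4
  obtain ⟨H₀, hH₀⟩ := eventually_atTop.1 (e1.and (e2.and (e3.and (eventually_ge_atTop 20))))
  refine ⟨H₀, fun H hH k hk T0 hT0 => ?_⟩
  obtain ⟨f1, f2, f3, f4⟩ := hH₀ H hH
  set L : ℝ := Real.log (H : ℝ) with hL
  have hL0 : 0 ≤ L := by linarith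
  set E : ℝ := Real.exp (√L) with hE
  have hu : 0 < √L := Real.sqrt_pos.2 (by linarith)
  have hE0 : 0 < E := Real.exp_pos _
  set T : ℕ → Finset ℕ := fun h => (Icc 1 H).filter (fun p : ℕ => p.Prime ∧ E ≤ p ∧
    (p : ℤ) ∣ larN k h) with hT
  -- the size of `T h`
  have hcard : ∀ h ∈ Icc 1 ⌊L ^ B⌋₊, ((T h).card : ℝ) ≤ (2 * C + 4) * √L := by
    intro h hh
    obtain ⟨hh1, hh2⟩ := Finset.mem_Icc.1 hh
    have hhL : (h : ℝ) ≤ L ^ B := (Nat.le_floor_iff (by positivity)).1 hh2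
    have hhA : (h : ℝ) < H := by
      have : (0 : ℝ) ≤ h := Nat.cast_nonneg h
      linarith
    obtain ⟨g1, g2⟩ := larN_bd hh1 hhA hk f4
    have g3 := lar_cnt g1 hE0.le g2 (T h) fun p hp => (Finset.mem_filter.1 hp).2
    have g4 := Real.log_le_log (pow_pos hE0 _) g3
    rw [Real.log_pow, Real.log_pow, hE, Real.log_exp, ← hL] at g4
    have g5 : L = √L * √L := (Real.mul_self_sqrt hL0).symm
    have g6 : ((T h).card : ℝ) * √L ≤ ((2 * C + 4) * √L) * √L := by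
      rw [mul_assoc, ← g5]
      exact_mod_cast g4
    exact le_of_mul_le_mul_right g6 hu
  -- the sum
  have hsub : T0 ⊆ (Icc 1 ⌊L ^ B⌋₊).biUnion T := by
    intro p hp
    obtain ⟨hp1, hp2, hp3, h, hh1, hh2, hh3⟩ := hT0 p hp
    refine Finset.mem_biUnion.2 ⟨h, Finset.mem_Icc.2 ⟨hh1, Nat.le_floor hh2⟩,
      Finset.mem_filter.2 ⟨hp1, hp2, hp3, ?_⟩⟩
    unfold larN
    rcases cfG hp2 hh3 with h1 | h1
    · have h2 : (p : ℤ) ∣ (h : ℤ) := Int.natCast_dvd_natCast.2 h1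
      exact h2.mul_right _
    · have h2 : (p : ℤ) ∣ (h : ℤ) ^ 2 + 4 * (k : ℤ) ^ 2 := by exact_mod_cast h1
      exact h2.mul_left _
  have hin : ∀ h ∈ Icc 1 ⌊L ^ B⌋₊, ∑ p ∈ T h, (1 : ℝ) / p ≤ (2 * C + 4) * √L * Real.exp (-√L) := by
    intro h hh
    have h1 : ∀ p ∈ T h, (1 : ℝ) / p ≤ Real.exp (-√L) := by
      intro p hp
      obtain ⟨-, -, h2, -⟩ := Finset.mem_filter.1 hp
      rw [Real.exp_neg, ← hE, one_div]
      exact inv_anti₀ hE0 h2
    calc ∑ p ∈ T h, (1 : ℝ) / p ≤ ∑ _p ∈ T h, Real.exp (-√L) := Finset.sum_le_sum h1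
      _ = (T h).card * Real.exp (-√L) := by rw [Finset.sum_const, nsmul_eq_mul]
      _ ≤ (2 * C + 4) * √L * Real.exp (-√L) :=
        mul_le_mul_of_nonneg_right (hcard h hh) (Real.exp_pos _).le
  calc _ ≤ ∑ p ∈ (Icc 1 ⌊L ^ B⌋₊).biUnion T, (1 : ℝ) / p :=
        Finset.sum_le_sum_of_subset_of_nonneg hsub fun _ _ _ => by positivity
    _ ≤ ∑ h ∈ Icc 1 ⌊L ^ B⌋₊, ∑ p ∈ T h, (1 : ℝ) / p :=
        lar_union _ _ _ fun _ => by positivity
    _ ≤ ∑ _h ∈ Icc 1 ⌊L ^ B⌋₊, (2 * C + 4) * √L * Real.exp (-√L) := Finset.sum_le_sum hin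
    _ = (⌊L ^ B⌋₊ : ℝ) * ((2 * C + 4) * √L * Real.exp (-√L)) := by
        rw [Finset.sum_const, nsmul_eq_mul, Nat.card_Icc, Nat.add_sub_cancel]
    _ ≤ L ^ B * ((2 * C + 4) * √L * Real.exp (-√L)) :=
        mul_le_mul_of_nonneg_right (Nat.floor_le (by positivity)) (by positivity)
    _ = (2 * C + 4) * (√L ^ (2 * B + 1) * Real.exp (-√L)) := by
        have h1 : √L ^ (2 * B + 1) = L ^ B * √L := by
          rw [pow_succ, pow_mul, Real.sq_sqrt hL0]
        rw [h1]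
        ring
    _ ≤ η := by
        rw [lt_div_iff₀ (by positivity)] at f2
        linarith

end Pool.Agent.J6H29.GT
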